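import Mathlib

set_option autoImplicit false

/-!
Combinatorial consequences of direct finiteness of a monoid algebra.
-/

namespace Pool.Agent.H656.DFSF

open MonoidAlgebra

universe u v w

/-- the two-sided divisibility preorder -/
def JLe {M : Type u} [Monoid M] (a b : M) : Prop := ∃ x y : M, a = x * b * y

/-- the two combinatorial conditions used below -/
structure Star (M : Type u) [Monoid M] : Prop where
  s1 : ∀ f p q : M, f * f = f → f * p = p → p * f = p → f * q = q → q * f = q →
    p * q = f → q * p = f
  s2 : ∀ u1 u2 v1 v2 : M, u1 * v1 = u1 → u1 * v2 = v2 → u2 * v1 = u2 → u2 * v2 = v1 →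
    u1 * u1 = u1 ∨ v2 * v2 = v2

section

variable {M : Type u} [Monoid M]

lemma JLe.refl (a : M) : JLe a a := ⟨1, 1, by simp⟩

lemma JLe.trans {a b c : M} (h1 : JLe a b) (h2 : JLe b c) : JLe a c := by
  obtain ⟨x, y, rfl⟩ := h1
  obtain ⟨z, w, rfl⟩ := h2
  exact ⟨x * z, w * y, by simp only [mul_assoc]⟩

lemma jLe_mul_left (a b : M) : JLe (a * b) b := ⟨a, 1, by simp⟩

lemma jLe_mul_right (a b : M) : JLe (a * b) a := ⟨1, b, by simp⟩

/-- direct finiteness of the monoid algebra over any field gives the two conditions -/
theorem star_of_df {K : Type w} [Field K]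
    (h : ∀ a b : MonoidAlgebra K M, a * b = 1 → b * a = 1) : Star M := by
  refine ⟨?_, ?_⟩
  · intro f p q hff hfp hpf hfq hqf hpq
    have eff : single f (1 : K) * single f 1 = single f 1 := by
      rw [single_mul_single, hff, one_mul]
    have efp : single f (1 : K) * single p 1 = single p 1 := by
      rw [single_mul_single, hfp, one_mul]
    have epf : single p (1 : K) * single f 1 = single p 1 := by
      rw [single_mul_single, hpf, one_mul]
    have efq : single f (1 : K) * single q 1 = single q 1 := by
      rw [single_mul_single, hfq, one_mul]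
    have eqf : single q (1 : K) * single f 1 = single q 1 := by
      rw [single_mul_single, hqf, one_mul]
    have epq : single p (1 : K) * single q 1 = single f 1 := by
      rw [single_mul_single, hpq, one_mul]
    have h1 : (1 - single f (1 : K) + single p 1) * (1 - single f (1 : K) + single q 1) = 1 := by
      have : (1 - single f (1 : K) + single p 1) * (1 - single f (1 : K) + single q 1) =
        1 - single f (1 : K) - single f (1 : K) + single f (1 : K) * single f 1 + single q 1
          - single f (1 : K) * single q 1 + single p 1 - single p (1 : K) * single f 1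
          + single p (1 : K) * single q 1 := by noncomm_ring
      rw [this, eff, efq, epf, epq]
      abel
    have h2 := h _ _ h1
    have h3 : (1 - single f (1 : K) + single q 1) * (1 - single f (1 : K) + single p 1) =
        1 - single f (1 : K) - single f (1 : K) + single f (1 : K) * single f 1 + single p 1
          - single f (1 : K) * single p 1 + single q 1 - single q (1 : K) * single f 1
          + single q (1 : K) * single p 1 := by noncomm_ring
    rw [h3, eff, efp, eqf] at h2
    have h4 : single q (1 : K) * single p 1 = single f 1 := by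
      have : single q (1 : K) * single p 1 =
        (1 - single f (1 : K) - single f (1 : K) + single f (1 : K) + single p 1
          - single p 1 + single q 1 - single q (1 : K)
          + single q (1 : K) * single p 1) - 1 + single f 1 := by abel
      rw [this, h2]
      abel
    rw [single_mul_single, one_mul] at h4
    exact (single_left_inj one_ne_zero).1 h4
  · intro u1 u2 v1 v2 h11 h12 h21 h22
    have e11 : single u1 (1 : K) * single v1 1 = single u1 1 := by
      rw [single_mul_single, h11, one_mul]
    have e12 : single u1 (1 : K) * single v2 1 = single v2 1 := by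
      rw [single_mul_single, h12, one_mul]
    have e21 : single u2 (1 : K) * single v1 1 = single u2 1 := by
      rw [single_mul_single, h21, one_mul]
    have e22 : single u2 (1 : K) * single v2 1 = single v1 1 := by
      rw [single_mul_single, h22, one_mul]
    have h1 : (1 - single u1 (1 : K) + single u2 1) * (1 - single v1 (1 : K) + single v2 1) = 1 := by
      have : (1 - single u1 (1 : K) + single u2 1) * (1 - single v1 (1 : K) + single v2 1) =
        1 - single v1 (1 : K) + single v2 1 - single u1 1 + single u1 (1 : K) * single v1 1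
          - single u1 (1 : K) * single v2 1 + single u2 1 - single u2 (1 : K) * single v1 1
          + single u2 (1 : K) * single v2 1 := by noncomm_ring
      rw [this, e11, e12, e21, e22]
      abel
    have h2 := h _ _ h1
    have h3 : single u1 (1 : K) * (1 - single v1 (1 : K) + single v2 1) = single v2 1 := by
      have : single u1 (1 : K) * (1 - single v1 (1 : K) + single v2 1) =
        single u1 1 - single u1 (1 : K) * single v1 1 + single u1 (1 : K) * single v2 1 := by
        noncomm_ring
      rw [this, e11, e12]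
      abel
    have h4 : single v2 (1 : K) * (1 - single u1 (1 : K) + single u2 1) = single u1 1 := by
      rw [← h3, mul_assoc, h2, mul_one]
    have h5 : single v2 (1 : K) + single (v2 * u2) 1 = single u1 1 + single (v2 * u1) 1 := by
      have : single v2 (1 : K) * (1 - single u1 (1 : K) + single u2 1) =
        single v2 1 - single v2 (1 : K) * single u1 1 + single v2 (1 : K) * single u2 1 := by
        noncomm_ring
      rw [this, single_mul_single, single_mul_single, one_mul] at h4
      rw [← h4]
      abel
    rcases (single_add_single_inj (one_ne_zero) (one_ne_zero)).1 h5 with h6 | h6 | h6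
    · left
      nth_rewrite 2 [← h6.1]
      rw [h12, h6.1]
    · left
      rw [← h6.2.2]
      calc v2 * u2 * (v2 * u2) = v2 * (u2 * v2) * u2 := by simp only [mul_assoc]
        _ = v2 * v1 * u2 := by rw [h22]
        _ = (v2 * u1) * v1 * u2 := by rw [← h6.2.1]
        _ = v2 * (u1 * v1) * u2 := by simp only [mul_assoc]
        _ = v2 * u2 := by rw [h11, ← h6.2.1]
    · right
      calc v2 * v2 = v2 * (u1 * v2) := by rw [h12]
        _ = (v2 * u1) * v2 := by rw [mul_assoc]
        _ = u1 * v2 := by rw [← h6.2.2]
        _ = v2 := h12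

lemma exists_max {α : Type u} (r : α → α → Prop) (hr : ∀ a, r a a)
    (ht : ∀ a b c, r a b → r b c → r a c) (P : Finset α) (hP : P.Nonempty) :
    ∃ c ∈ P, ∀ x ∈ P, r c x → r x c := by
  let _ : Preorder α := { le := r, le_refl := hr, le_trans := ht }
  obtain ⟨c, hc⟩ := P.exists_maximal hP
  exact ⟨c, hc.1, fun x hx h => hc.2 hx h⟩

/-- a regular J-class contains an idempotent -/
theorem exists_idem (hS : Star M) (P : Finset M) (hP : P.Nonempty) (c : M)
    (hc : ∀ x ∈ P, JLe c x ∧ JLe x c) (hf : ∀ t ∈ P, ∃ s ∈ P, ∃ t' ∈ P, t = s * t') :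
    ∃ f : M, f * f = f ∧ JLe c f ∧ JLe f c := by
  classical
  obtain ⟨t, htP, htm⟩ := exists_max (fun a b : M => ∃ w, a = w * b) (fun a => ⟨1, by simp⟩)
    (fun a b c h1 h2 => by
      obtain ⟨w, rfl⟩ := h1
      obtain ⟨w', rfl⟩ := h2
      exact ⟨w * w', by rw [mul_assoc]⟩) P hP
  obtain ⟨s, hsP, t', ht'P, hst⟩ := hf t htP
  obtain ⟨w, hw⟩ := htm t' ht'P ⟨s, hst⟩
  obtain ⟨r, hrP', hrm⟩ := exists_max (fun a b : M => ∃ w, a = b * w) (fun a => ⟨1, by simp⟩)
    (fun a b c h1 h2 => by
      obtain ⟨w, rfl⟩ := h1
      obtain ⟨w', rfl⟩ := h2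
      exact ⟨w' * w, by rw [mul_assoc]⟩) (P.filter (fun x => ∃ w, s = x * w))
      ⟨s, Finset.mem_filter.2 ⟨hsP, 1, by simp⟩⟩
  obtain ⟨hrP, β', hβ⟩ := Finset.mem_filter.1 hrP'
  obtain ⟨r1, hr1P, r2, hr2P, hr⟩ := hf r hrP
  obtain ⟨w', hw'⟩ := hrm r1 (Finset.mem_filter.2 ⟨hr1P, r2 * β', by
    rw [hβ]
    nth_rewrite 1 [hr]
    rw [mul_assoc]⟩) ⟨r2, hr⟩
  obtain ⟨x, y, hxy⟩ : JLe r2 t := (hc r2 hr2P).2.trans (hc t htP).1
  -- the configuration
  have hrv1 : r * (w' * r2) = r := by
    rw [← mul_assoc, ← hw', ← hr]
  have hrt1 : r * (β' * w * t) = t := by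
    calc r * (β' * w * t) = (r * β') * (w * t) := by simp only [mul_assoc]
      _ = t := by rw [← hβ, ← hw, ← hst]
  have hu1t1 : (β' * w * r) * (β' * w * t) = β' * w * t := by
    rw [mul_assoc, hrt1]
  have hu1v1 : (β' * w * r) * (w' * r2) = β' * w * r := by
    rw [mul_assoc, hrv1]
  have hut1y : (w' * x * r) * (β' * w * t) * y = w' * r2 := by
    calc (w' * x * r) * (β' * w * t) * y = w' * x * (r * (β' * w * t)) * y := by
          simp only [mul_assoc]
      _ = w' * (x * t * y) := by rw [hrt1]; simp only [mul_assoc]
      _ = w' * r2 := by rw [← hxy]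
  have hkey := hS.s2 (β' * w * r) ((w' * x * r) * (β' * w * r)) (w' * r2) ((β' * w * t) * y)
    hu1v1 (by rw [← mul_assoc, hu1t1]) (by rw [mul_assoc, hu1v1])
    (by
      calc (w' * x * r) * (β' * w * r) * ((β' * w * t) * y) =
          (w' * x * r) * ((β' * w * r) * (β' * w * t)) * y := by simp only [mul_assoc]
        _ = w' * r2 := by rw [hu1t1, hut1y])
  have hct : JLe c t := (hc t htP).1
  have htc : JLe t c := (hc t htP).2
  have hcr : JLe c r := (hc r hrP).1
  have hrc : JLe r c := (hc r hrP).2
  rcases hkey with h | h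
  · refine ⟨β' * w * r, h, ?_, ?_⟩
    · refine hct.trans ?_
      have h1 : JLe t (β' * w * t) := ⟨r, 1, by rw [mul_one, hrt1]⟩
      have h2 : JLe (β' * w * t) (β' * w * r) := by
        nth_rewrite 1 [← hu1t1]
        exact jLe_mul_right _ _
      exact h1.trans h2
    · exact (jLe_mul_left _ _).trans hrc
  · refine ⟨β' * w * t * y, h, ?_, ?_⟩
    · refine hcr.trans ?_
      have h1 : JLe r (w' * r2) := by
        nth_rewrite 1 [← hrv1]
        exact jLe_mul_left _ _
      have h2 : JLe (w' * r2) (β' * w * t * y) := by
        nth_rewrite 1 [← hut1y]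
        rw [mul_assoc]
        exact jLe_mul_left _ _
      exact h1.trans h2
    · have h1 : JLe (β' * w * t * y) t := ⟨β' * w, y, rfl⟩
      exact h1.trans htc

/-- the `L`-class (in the subset `M f`) of an idempotent -/
def LC (f x : M) : Prop := x * f = x ∧ ∃ y, y * x = f

lemma LC.jLe {f x : M} (h : LC f x) : JLe f x := by
  obtain ⟨_, y, hy⟩ := h
  exact ⟨y, 1, by rw [mul_one, hy]⟩

/-- stability on the left -/
theorem F1 (hS : Star M) {f x m : M} (hf : f * f = f) (hx : LC f x) (h : JLe f (m * x)) :
    LC f (m * x) := by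
  obtain ⟨a, b, hab⟩ := h
  refine ⟨by rw [mul_assoc, hx.1], f * b * f * f * a, ?_⟩
  have h1 : (f * a * m * x) * (f * b * f) = f := by
    calc (f * a * m * x) * (f * b * f) = f * (a * (m * (x * f)) * b) * f := by
          simp only [mul_assoc]
      _ = f * (a * (m * x) * b) * f := by rw [hx.1]
      _ = f := by rw [← hab, hf, hf]
  have h2 := hS.s1 f (f * a * m * x) (f * b * f) hf
    (by simp only [← mul_assoc, hf]) (by rw [mul_assoc, hx.1])
    (by simp only [← mul_assoc, hf]) (by rw [mul_assoc, hf]) h1
  calc f * b * f * f * a * (m * x) = (f * b * f) * (f * a * m * x) := by simp only [mul_assoc]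
    _ = f := h2

/-- every element of the J-class is R-equivalent to an element of the L-class -/
theorem toL (hS : Star M) {f t : M} (hf : f * f = f) (h1 : JLe f t) (h2 : JLe t f) :
    ∃ x, LC f x ∧ (∃ a, x = t * a) ∧ ∃ b, t = x * b := by
  obtain ⟨α, β, hαβ⟩ := h1
  obtain ⟨γ, δ, hγδ⟩ := h2
  refine ⟨t * β * f, ⟨by rw [mul_assoc, hf], α, ?_⟩, ⟨β * f, by rw [mul_assoc]⟩, ?_⟩
  · calc α * (t * β * f) = (α * t * β) * f := by simp only [mul_assoc]
      _ = f := by rw [← hαβ, hf]
  · have hpq : (f * α * γ * f) * (f * δ * β * f) = f := by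
      calc (f * α * γ * f) * (f * δ * β * f) = f * α * γ * (f * f) * δ * β * f := by
            simp only [mul_assoc]
        _ = f * (α * (γ * f * δ) * β) * f := by rw [hf]; simp only [mul_assoc]
        _ = f := by rw [← hγδ, ← hαβ, hf, hf]
    have hqp := hS.s1 f (f * α * γ * f) (f * δ * β * f) hf
      (by simp only [← mul_assoc, hf]) (by simp only [mul_assoc, hf])
      (by simp only [← mul_assoc, hf]) (by simp only [mul_assoc, hf]) hpq
    refine ⟨f * α * γ * f * δ, ?_⟩
    calc t = γ * f * δ := hγδ
      _ = γ * ((f * δ * β * f) * (f * α * γ * f)) * δ := by rw [hqp]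
      _ = (γ * f * δ) * β * (f * f) * α * γ * f * δ := by simp only [mul_assoc]
      _ = t * β * (f * f) * α * γ * f * δ := by rw [← hγδ]
      _ = t * β * f * (f * α * γ * f * δ) := by simp only [mul_assoc]

end

/-- The group of units of the local monoid at an idempotent `f`. -/
@[ext (iff := false)]
structure HG {M : Type u} [Monoid M] (f : M) where
  /-- the element -/
  val : M
  /-- its inverse -/
  inv : M
  hv1 : f * val = val
  hv2 : val * f = val
  hi1 : f * inv = inv
  hi2 : inv * f = inv
  h1 : val * inv = f
  h2 : inv * val = f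

section

variable {M : Type u} [Monoid M] {f : M}

lemma HG.ext' {a b : HG f} (h : a.val = b.val) : a = b := by
  have hinv : a.inv = b.inv := by
    calc a.inv = a.inv * f := a.hi2.symm
      _ = a.inv * (b.val * b.inv) := by rw [b.h1]
      _ = (a.inv * a.val) * b.inv := by rw [h, mul_assoc]
      _ = b.inv := by rw [a.h2, b.hi1]
  exact HG.ext h hinv

/-- `f` with a proof of idempotency -/
class Idp (f : M) : Prop where
  out : f * f = f

variable [hf : Idp f]

instance : Mul (HG f) where
  mul a b :=
    { val := a.val * b.val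
      inv := b.inv * a.inv
      hv1 := by rw [← mul_assoc, a.hv1]
      hv2 := by rw [mul_assoc, b.hv2]
      hi1 := by rw [← mul_assoc, b.hi1]
      hi2 := by rw [mul_assoc, a.hi2]
      h1 := by
        calc a.val * b.val * (b.inv * a.inv) = a.val * (b.val * b.inv) * a.inv := by
              simp only [mul_assoc]
          _ = f := by rw [b.h1, a.hv2, a.h1]
      h2 := by
        calc b.inv * a.inv * (a.val * b.val) = b.inv * (a.inv * a.val) * b.val := by
              simp only [mul_assoc]
          _ = f := by rw [a.h2, b.hi2, b.h2] }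

instance : One (HG f) where
  one := ⟨f, f, hf.out, hf.out, hf.out, hf.out, hf.out, hf.out⟩

instance : Inv (HG f) where
  inv a := ⟨a.inv, a.val, a.hi1, a.hi2, a.hv1, a.hv2, a.h2, a.h1⟩

omit hf in
@[simp] lemma HG.mul_val (a b : HG f) : (a * b).val = a.val * b.val := rfl

@[simp] lemma HG.one_val : (1 : HG f).val = f := rfl

omit hf in
@[simp] lemma HG.inv_val (a : HG f) : (a⁻¹).val = a.inv := rfl

instance : Group (HG f) :=
  Group.ofLeftAxioms (fun a b c => HG.ext' (by simp only [HG.mul_val, mul_assoc]))
    (fun a => HG.ext' (by rw [HG.mul_val, HG.one_val, a.hv1]))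
    (fun a => HG.ext' (by rw [HG.mul_val, HG.inv_val, HG.one_val, a.h2]))

end

end Pool.Agent.H656.DFSF
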