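import Mathlib
import Pool.Agent.H656.DFSF.Comb

set_option autoImplicit false

/-!
From matrices over a monoid algebra to matrices over the algebra of a maximal subgroup.
-/

namespace Pool.Agent.H656.DFSF

open MonoidAlgebra

universe u v w z

section comb

variable {M : Type u} [Monoid M] {f : M} [hf : Idp f]

omit hf in
lemma H_inj {x : M} (hx : LC f x) {h h' : HG f} (e : x * h.val = x * h'.val) : h = h' := by
  obtain ⟨_, y, hy⟩ := hx
  apply HG.ext'
  calc h.val = (y * x) * h.val := by rw [hy, h.hv1]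
    _ = (y * x) * h'.val := by rw [mul_assoc, e, mul_assoc]
    _ = h'.val := by rw [hy, h'.hv1]

omit hf in
lemma LC_mul_H {x : M} (hx : LC f x) (h : HG f) : LC f (x * h.val) := by
  obtain ⟨hx1, y, hy⟩ := hx
  refine ⟨by rw [mul_assoc, h.hv2], h.inv * y, ?_⟩
  calc h.inv * y * (x * h.val) = h.inv * (y * x) * h.val := by simp only [mul_assoc]
    _ = f := by rw [hy, h.hi2, h.h2]

omit hf in
lemma mul_val_inv {x : M} (hx : LC f x) (h : HG f) : x * h.val * h.inv = x := by
  rw [mul_assoc, h.h1, hx.1]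

omit hf in
lemma mul_inv_val {x : M} (hx : LC f x) (h : HG f) : x * h.inv * h.val = x := by
  rw [mul_assoc, h.h2, hx.1]

/-- comparison of two elements of the L-class -/
theorem toH (hS : Star M) {s xs x : M} (hxs : LC f xs) {b : M}
    (hb : s = xs * b) (hx : LC f x) (hsx : LC f (s * x)) : ∃ h : HG f, s * x = xs * h.val := by
  obtain ⟨_, y, hy⟩ := hsx
  have hx1 := hx.1
  have hxs1 := hxs.1
  have hff := hf.out
  have hinv : (f * y * xs) * (f * b * x) = f := by
    calc (f * y * xs) * (f * b * x) = f * y * (xs * f) * b * x := by simp only [mul_assoc]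
      _ = f * (y * ((xs * b) * x)) := by rw [hxs1]; simp only [mul_assoc]
      _ = f := by rw [← hb, hy, hff]
  have a1 : f * (f * b * x) = f * b * x := by simp only [← mul_assoc, hff]
  have a2 : (f * b * x) * f = f * b * x := by rw [mul_assoc, hx1]
  have a3 : f * (f * y * xs) = f * y * xs := by simp only [← mul_assoc, hff]
  have a4 : (f * y * xs) * f = f * y * xs := by rw [mul_assoc, hxs1]
  refine ⟨⟨f * b * x, f * y * xs, a1, a2, a3, a4,
    hS.s1 f (f * y * xs) (f * b * x) hff a3 a4 a1 a2 hinv, hinv⟩, ?_⟩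
  show s * x = xs * (f * b * x)
  calc s * x = xs * b * x := by rw [← hb]
    _ = (xs * f) * b * x := by rw [hxs1]
    _ = xs * (f * b * x) := by simp only [mul_assoc]

lemma LC_f : LC f f := ⟨hf.out, f, hf.out⟩

theorem toH' (hS : Star M) {x x' w : M} (hx : LC f x) (hx' : LC f x') (e : x' = x * w) :
    ∃ h : HG f, x' = x * h.val := by
  obtain ⟨h, hh⟩ := toH hS (s := x') hx e (LC_f (f := f)) (by rw [hx'.1]; exact hx')
  exact ⟨h, by rw [← hh, hx'.1]⟩

/-- the right ideal generated by `x` -/
def rI (x : M) : Set M := {z | ∃ w, z = x * w}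

omit hf in
lemma rI_mul_H {x : M} (hx : LC f x) (h : HG f) : rI (x * h.val) = rI x := by
  ext z
  constructor
  · rintro ⟨w, rfl⟩
    exact ⟨h.val * w, by rw [mul_assoc]⟩
  · rintro ⟨w, rfl⟩
    refine ⟨h.inv * w, ?_⟩
    rw [← mul_assoc, mul_val_inv hx]

theorem rI_eq (hS : Star M) {x x' : M} (hx : LC f x) (hx' : LC f x') (e : rI x' = rI x) :
    ∃ h : HG f, x' = x * h.val := by
  have h1 : x' ∈ rI x := by
    rw [← e]
    exact ⟨1, by simp⟩
  obtain ⟨w, hw⟩ := h1
  exact toH' hS hx hx' hw

variable (f) in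
open Classical in
/-- global representatives -/
noncomputable def rp (I : Set M) : M := if h : ∃ x, LC f x ∧ I = rI x then h.choose else 1

variable (f) in
/-- `x` is a chosen representative -/
def IsRep (x : M) : Prop := LC f x ∧ rp f (rI x) = x

omit hf in
lemma rp_spec {x : M} (hx : LC f x) : LC f (rp f (rI x)) ∧ rI x = rI (rp f (rI x)) := by
  classical
  have h : ∃ x', LC f x' ∧ rI x = rI x' := ⟨x, hx, rfl⟩
  have e : rp f (rI x) = h.choose := by
    unfold rp
    rw [dif_pos h]
  rw [e]
  exact h.choose_spec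

omit hf in
lemma isRep_rp {x : M} (hx : LC f x) : IsRep f (rp f (rI x)) := by
  obtain ⟨h1, h2⟩ := rp_spec hx
  exact ⟨h1, by rw [← h2]⟩

theorem exists_rp (hS : Star M) {x : M} (hx : LC f x) :
    ∃ h : HG f, x = rp f (rI x) * h.val :=
  rI_eq hS (rp_spec hx).1 hx (rp_spec hx).2

omit hf in
lemma IsRep.unique {x x' : M} (hx : IsRep f x) (hx' : IsRep f x') {h h' : HG f}
    (e : x * h.val = x' * h'.val) : x = x' := by
  have h1 : rI x = rI x' := by rw [← rI_mul_H hx.1 h, e, rI_mul_H hx'.1 h']
  rw [← hx.2, h1, hx'.2]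

variable (f) in
/-- `s` maps the L-class to the classes of the finite set `X` -/
def Good (X : Finset M) (s : M) : Prop :=
  ∀ x, LC f x → LC f (s * x) → ∃ x' ∈ X, ∃ h : HG f, s * x = x' * h.val

/-- finitely many elements of the ideal below the class have a finite set of representatives -/
theorem exists_good (hS : Star M) (S : Finset M) (hSN : ∀ s ∈ S, JLe f s → JLe s f) :
    ∃ X : Finset M, (∀ x ∈ X, IsRep f x) ∧ (∀ s ∈ S, Good f X s) ∧
      (∀ s ∈ S, JLe f s → ∃ x ∈ X, ∃ b, s = x * b) := by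
  classical
  have key : ∀ s : M, JLe f s → JLe s f → ∃ x, IsRep f x ∧ (∃ b, s = x * b) ∧ Good f {x} s := by
    intro s h1 h2
    obtain ⟨xs, hxs, -, b, hb⟩ := toL hS hf.out h1 h2
    obtain ⟨g, hg⟩ := exists_rp hS hxs
    refine ⟨rp f (rI xs), isRep_rp hxs, ⟨g.val * b, ?_⟩, ?_⟩
    · rw [← mul_assoc, ← hg]
      exact hb
    · intro x hx hsx
      obtain ⟨h, hh⟩ := toH hS hxs hb hx hsx
      refine ⟨_, Finset.mem_singleton_self _, g * h, ?_⟩
      rw [hh, HG.mul_val, ← mul_assoc, ← hg]
  choose! F hF using key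
  refine ⟨(S.filter (fun s => JLe f s)).image F, ?_, ?_, ?_⟩
  · intro x hx
    obtain ⟨s, hs, rfl⟩ := Finset.mem_image.1 hx
    obtain ⟨hsS, hs1⟩ := Finset.mem_filter.1 hs
    exact (hF s hs1 (hSN s hsS hs1)).1
  · intro s hs x hx hsx
    have hs1 : JLe f s := (LC.jLe hsx).trans (jLe_mul_right _ _)
    obtain ⟨x', hx', h, hh⟩ := (hF s hs1 (hSN s hs hs1)).2.2 x hx hsx
    rw [Finset.mem_singleton] at hx'
    subst hx'
    exact ⟨F s, Finset.mem_image_of_mem _ (Finset.mem_filter.2 ⟨hs, hs1⟩), h, hh⟩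
  · intro s hs hs1
    exact ⟨F s, Finset.mem_image_of_mem _ (Finset.mem_filter.2 ⟨hs, hs1⟩),
      (hF s hs1 (hSN s hs hs1)).2.1⟩

omit hf in
lemma Good.mono {X Y : Finset M} (h : X ⊆ Y) {s : M} (hs : Good f X s) : Good f Y s := by
  intro x hx hsx
  obtain ⟨x', hx', h', e⟩ := hs x hx hsx
  exact ⟨x', h hx', h', e⟩

end comb

section lin

variable {M : Type u} {R : Type w} [CommRing R] {V : Type z} [AddCommGroup V] [Module R V]

/-- linear extension -/
noncomputable def lin (g : M → V) : MonoidAlgebra R M →ₗ[R] V :=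
  (Finsupp.linearCombination R g).comp (coeffLinearEquiv R).toLinearMap

lemma lin_single (g : M → V) (m : M) (r : R) : lin g (single m r) = r • g m := by
  show Finsupp.linearCombination R g (Finsupp.single m r) = _
  rw [Finsupp.linearCombination_single]

lemma lin_eq_sum (g : M → V) (a : MonoidAlgebra R M) (P : Finset M)
    (h : a.coeff.support ⊆ P) : lin g a = ∑ m ∈ P, a.coeff m • g m := by
  show Finsupp.linearCombination R g a.coeff = _
  rw [Finsupp.linearCombination_apply, Finsupp.sum_of_support_subset _ h]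
  intro i _
  rw [zero_smul]

lemma eq_sum_single (a : MonoidAlgebra R M) :
    a = ∑ m ∈ a.coeff.support, single m (a.coeff m) := by
  classical
  ext m
  rw [coeff_sum, Finsupp.finsetSum_apply]
  simp only [coeff_single, Finsupp.single_apply]
  rw [Finset.sum_ite_eq']
  split_ifs with h
  · rfl
  · exact Finsupp.notMem_support_iff.1 h

end lin

section red

variable {M : Type u} [Monoid M] {f : M} [hf : Idp f] {R : Type w} [CommRing R]

variable (R) in
open Classical in
/-- the matrix coefficient of an element of the monoid -/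
noncomputable def ps (x x' s : M) : MonoidAlgebra R (HG f) :=
  if h : ∃ h : HG f, s * x' = x * h.val then single h.choose 1 else 0

lemma ps_eq {x x' s : M} (hx : LC f x) {h : HG f} (e : s * x' = x * h.val) :
    ps R x x' s = single h 1 := by
  classical
  have h1 : ∃ h : HG f, s * x' = x * h.val := ⟨h, e⟩
  unfold ps
  rw [dif_pos h1]
  congr 1
  exact H_inj hx (by rw [← h1.choose_spec, e])

lemma ps_zero {x x' s : M} (e : ¬ ∃ h : HG f, s * x' = x * h.val) :
    ps (f := f) R x x' s = 0 := by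
  classical
  unfold ps
  rw [dif_neg e]

/-- multiplicativity on elements of the monoid -/
theorem ps_mul {X : Finset M} (hX : ∀ x ∈ X, IsRep f x) {x x'' : M} (hx : LC f x)
    (hx'' : LC f x'') (s t : M) (ht : Good f X t) :
    ps (f := f) R x x'' (s * t) = ∑ x' ∈ X, ps (f := f) R x x' s * ps (f := f) R x' x'' t := by
  classical
  by_cases hz : LC f (t * x'')
  · obtain ⟨x0, hx0, h, hh⟩ := ht x'' hx'' hz
    rw [Finset.sum_eq_single_of_mem x0 hx0]
    · rw [ps_eq (hX x0 hx0).1 hh]
      by_cases hs : ∃ g : HG f, s * x0 = x * g.val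
      · obtain ⟨g, hg⟩ := hs
        rw [ps_eq hx hg, single_mul_single, one_mul]
        apply ps_eq hx
        rw [mul_assoc, hh, ← mul_assoc, hg, HG.mul_val, mul_assoc]
      · rw [ps_zero hs, zero_mul]
        apply ps_zero
        rintro ⟨g, hg⟩
        apply hs
        refine ⟨g * h⁻¹, ?_⟩
        rw [HG.mul_val, HG.inv_val, ← mul_assoc, ← hg, mul_assoc s t, hh, mul_assoc s,
          mul_val_inv (hX x0 hx0).1]
    · intro x' hx' hne
      rw [ps_zero (x := x') (x' := x'') (s := t), mul_zero]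
      rintro ⟨g, hg⟩
      apply hne
      exact IsRep.unique (hX x' hx') (hX x0 hx0) (h := g) (h' := h) (by rw [← hg, hh])
  · have h1 : ∀ x' ∈ X, ps (f := f) R x' x'' t = 0 := by
      intro x' hx'
      apply ps_zero
      rintro ⟨g, hg⟩
      apply hz
      rw [hg]
      exact LC_mul_H (hX x' hx').1 g
    rw [Finset.sum_eq_zero (fun x' hx' => by rw [h1 x' hx', mul_zero])]
    apply ps_zero
    rintro ⟨g, hg⟩
    apply hz
    obtain ⟨_, y, hy⟩ := LC_mul_H hx g
    refine ⟨by rw [mul_assoc, hx''.1], y * s, ?_⟩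
    rw [← hy, ← hg]
    simp only [mul_assoc]

/-- the coefficient map -/
noncomputable def ph (x x' : M) : MonoidAlgebra R M →ₗ[R] MonoidAlgebra R (HG f) :=
  lin (ps (f := f) R x x')

theorem ph_mul {X : Finset M} (hX : ∀ x ∈ X, IsRep f x) {x x'' : M} (hx : LC f x)
    (hx'' : LC f x'') (a b : MonoidAlgebra R M) (hb : ∀ t ∈ b.coeff.support, Good f X t) :
    ph (f := f) x x'' (a * b) = ∑ x' ∈ X, ph (f := f) x x' a * ph (f := f) x' x'' b := by
  classical
  induction a using MonoidAlgebra.induction_linear with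
  | zero => simp
  | add a a' ha ha' => rw [add_mul, map_add, ha, ha', ← Finset.sum_add_distrib]
                       exact Finset.sum_congr rfl (fun x' _ => by rw [map_add, add_mul])
  | single s r =>
    have h1 : single s r * b = ∑ t ∈ b.coeff.support, single (s * t) (r * b.coeff t) := by
      conv_lhs => rw [eq_sum_single b]
      rw [Finset.mul_sum]
      exact Finset.sum_congr rfl (fun t _ => by rw [single_mul_single])
    rw [h1, map_sum]
    have h2 : ∀ x' ∈ X, ph (f := f) x x' (single s r) * ph (f := f) x' x'' b =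
        ∑ t ∈ b.coeff.support, (r * b.coeff t) • (ps (f := f) R x x' s * ps (f := f) R x' x'' t) := by
      intro x' _
      unfold ph
      rw [lin_single, lin_eq_sum _ b _ (le_refl _), Finset.mul_sum]
      refine Finset.sum_congr rfl (fun t _ => ?_)
      rw [smul_mul_smul_comm]
    rw [Finset.sum_congr rfl h2, Finset.sum_comm]
    refine Finset.sum_congr rfl (fun t ht => ?_)
    unfold ph
    rw [lin_single, ps_mul hX hx hx'' s t (hb t ht), Finset.smul_sum]

/-- the matrix over the group algebra -/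
noncomputable def mt {n : ℕ} (X : Finset M) (E : Matrix (Fin n) (Fin n) (MonoidAlgebra R M)) :
    Matrix (Fin n × X) (Fin n × X) (MonoidAlgebra R (HG f)) :=
  fun a b => ph (f := f) a.2.1 b.2.1 (E a.1 b.1)

theorem mt_idem {n : ℕ} {X : Finset M} (hX : ∀ x ∈ X, IsRep f x)
    {E : Matrix (Fin n) (Fin n) (MonoidAlgebra R M)}
    (hE : ∀ i j, ∀ t ∈ (E i j).coeff.support, Good f X t) (hEE : E * E = E) :
    mt (f := f) X E * mt (f := f) X E = mt (f := f) X E := by
  ext1 a b
  rw [Matrix.mul_apply, Fintype.sum_prod_type]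
  unfold mt
  have h1 : ∀ k : Fin n, ∑ y : X, ph (f := f) a.2.1 y.1 (E a.1 k) * ph (f := f) y.1 b.2.1 (E k b.1) =
      ph (f := f) a.2.1 b.2.1 (E a.1 k * E k b.1) := by
    intro k
    rw [ph_mul hX (hX _ a.2.2).1 (hX _ b.2.2).1 _ _ (hE k b.1)]
    exact Finset.sum_coe_sort X (fun y => ph (f := f) a.2.1 y (E a.1 k) *
      ph (f := f) y b.2.1 (E k b.1))
  simp only
  rw [Finset.sum_congr rfl (fun k _ => h1 k), ← map_sum, ← Matrix.mul_apply, hEE]

end red

end Pool.Agent.H656.DFSF
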