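import Mathlib
import Pool.Agent.H656.DFSF.Red

set_option autoImplicit false

/-!
The trace functionals.
-/

namespace Pool.Agent.H656.DFSF

open MonoidAlgebra

universe u v w z

section trace

variable {M : Type u} [Monoid M] {f : M} [hf : Idp f] {R : Type w} [CommRing R]

variable (f) in
/-- the right ideals of the L-class fixed by `m` -/
def Fx (m : M) : Set (Set M) := {I | ∃ x, LC f x ∧ I = rI x ∧ ∃ h : HG f, m * x = x * h.val}

open Classical in
/-- the weight of a fixed ideal -/
noncomputable def wt (χ : HG f → R) (m : M) (I : Set M) : R :=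
  if h : ∃ h : HG f, ∃ x, LC f x ∧ I = rI x ∧ m * x = x * h.val then χ h.choose else 0

lemma wt_eq (hS : Star M) (χ : HG f → R) (hχ : ∀ a b, χ (a * b) = χ (b * a)) {m x : M}
    (hx : LC f x) {h : HG f} (e : m * x = x * h.val) : wt χ m (rI x) = χ h := by
  classical
  have h1 : ∃ h : HG f, ∃ y, LC f y ∧ rI x = rI y ∧ m * y = y * h.val := ⟨h, x, hx, rfl, e⟩
  have e0 : wt χ m (rI x) = χ h1.choose := by
    unfold wt
    rw [dif_pos h1]
  rw [e0]
  obtain ⟨x', hx', e1, e2⟩ := h1.choose_spec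
  generalize h1.choose = h' at e2
  obtain ⟨g, hg⟩ := rI_eq hS hx hx' e1.symm
  have e3 : h * g = g * h' := by
    apply H_inj hx
    rw [HG.mul_val, HG.mul_val, ← mul_assoc, ← mul_assoc, ← e, ← hg, ← e2, hg, mul_assoc]
  have e4 : h' = g⁻¹ * (h * g) := by rw [e3]; group
  rw [e4, hχ, mul_assoc, mul_inv_cancel, mul_one]

omit hf in
lemma image_rI (n x : M) : (fun z => n * z) '' (rI x) = rI (n * x) := by
  ext z
  constructor
  · rintro ⟨_, ⟨w, rfl⟩, rfl⟩
    exact ⟨w, by simp only [mul_assoc]⟩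
  · rintro ⟨w, rfl⟩
    exact ⟨x * w, ⟨w, rfl⟩, by simp only [mul_assoc]⟩

omit hf in
lemma LC_shift {m n x : M} (hx : LC f x) {h : HG f} (e : m * n * x = x * h.val) :
    LC f (n * x) ∧ n * m * (n * x) = n * x * h.val := by
  obtain ⟨hx1, y, hy⟩ := hx
  refine ⟨⟨by rw [mul_assoc, hx1], h.inv * y * m, ?_⟩, ?_⟩
  · calc h.inv * y * m * (n * x) = h.inv * (y * (m * n * x)) := by simp only [mul_assoc]
      _ = h.inv * ((y * x) * h.val) := by rw [e, mul_assoc]
      _ = f := by rw [hy, h.hv1, h.h2]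
  · calc n * m * (n * x) = n * (m * n * x) := by simp only [mul_assoc]
      _ = n * x * h.val := by rw [e, mul_assoc]

omit hf in
lemma Fx_map {m n : M} {I : Set M} (hI : I ∈ Fx f (m * n)) :
    (fun z => n * z) '' I ∈ Fx f (n * m) ∧ (fun z => m * z) '' ((fun z => n * z) '' I) = I := by
  obtain ⟨x, hx, rfl, h, e⟩ := hI
  obtain ⟨h1, h2⟩ := LC_shift hx e
  refine ⟨⟨n * x, h1, image_rI n x, h, h2⟩, ?_⟩
  rw [image_rI, image_rI, ← mul_assoc, e, rI_mul_H hx]

/-- the trace of an element of the monoid -/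
noncomputable def tau (χ : HG f → R) (m : M) : R := ∑ᶠ I ∈ Fx f m, wt χ m I

theorem tau_comm (hS : Star M) (χ : HG f → R) (hχ : ∀ a b, χ (a * b) = χ (b * a)) (m n : M) :
    tau χ (m * n) = tau χ (n * m) := by
  unfold tau
  refine finsum_mem_eq_of_bijOn (fun I => (fun z => n * z) '' I) ⟨?_, ?_, ?_⟩ ?_
  · intro I hI
    exact (Fx_map hI).1
  · intro I hI I' hI' e
    simp only at e
    rw [← (Fx_map hI).2, ← (Fx_map hI').2, e]
  · intro J hJ
    exact ⟨(fun z => m * z) '' J, (Fx_map hJ).1, (Fx_map hJ).2⟩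
  · intro I hI
    obtain ⟨x, hx, rfl, h, e⟩ := hI
    obtain ⟨h1, h2⟩ := LC_shift hx e
    rw [wt_eq hS χ hχ hx e, image_rI, wt_eq hS χ hχ h1 h2]

/-- the trace functional -/
noncomputable def TT (χ : HG f → R) : MonoidAlgebra R M →ₗ[R] R := lin (tau χ)

lemma TT_comm (hS : Star M) (χ : HG f → R) (hχ : ∀ a b, χ (a * b) = χ (b * a))
    (a b : MonoidAlgebra R M) : TT χ (a * b) = TT χ (b * a) := by
  induction a using MonoidAlgebra.induction_linear with
  | zero => simp
  | add a a' ha ha' => rw [add_mul, mul_add, map_add, map_add, ha, ha']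
  | single s r =>
    induction b using MonoidAlgebra.induction_linear with
    | zero => simp
    | add a b ha hb => rw [add_mul, mul_add, map_add, map_add, ha, hb]
    | single t c =>
      rw [single_mul_single, single_mul_single]
      unfold TT
      rw [lin_single, lin_single, tau_comm hS χ hχ, mul_comm r c]

omit hf in
lemma trace_comm' {A : Type v} [Ring A] {V : Type z} [AddCommGroup V] (t : A →+ V)
    (ht : ∀ a b, t (a * b) = t (b * a)) {ι : Type w} [Fintype ι]
    (P Q : Matrix ι ι A) : ∑ i, t ((P * Q) i i) = ∑ i, t ((Q * P) i i) := by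
  simp only [Matrix.mul_apply, map_sum]
  rw [Finset.sum_comm]
  exact Finset.sum_congr rfl (fun i _ => Finset.sum_congr rfl (fun j _ => ht _ _))

/-- the trace computed on representatives -/
theorem tau_eq (hS : Star M) (χ : HG f → R) (hχ : ∀ a b, χ (a * b) = χ (b * a))
    {X : Finset M} (hX : ∀ x ∈ X, IsRep f x) {s : M} (hs : Good f X s) :
    tau χ s = ∑ x ∈ X, lin χ (ps (f := f) R x x s) := by
  classical
  have h1 : Fx f s = ((X.filter (fun x => ∃ h : HG f, s * x = x * h.val)).image rI : Finset (Set M)) := by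
    ext I
    rw [Finset.mem_coe, Finset.mem_image]
    constructor
    · rintro ⟨z, hz, rfl, h, e⟩
      obtain ⟨x', hx', g, hg⟩ := hs z hz (by rw [e]; exact LC_mul_H hz h)
      have e1 : z = x' * (g * h⁻¹).val := by
        rw [HG.mul_val, HG.inv_val, ← mul_assoc, ← hg, e, mul_val_inv hz]
      refine ⟨x', Finset.mem_filter.2 ⟨hx', g * h * g⁻¹, ?_⟩, ?_⟩
      · have e2 : x' = z * (h * g⁻¹).val := by
          rw [e1, mul_assoc, ← HG.mul_val]
          have : g * h⁻¹ * (h * g⁻¹) = 1 := by group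
          rw [this, HG.one_val, (hX x' hx').1.1]
        calc s * x' = s * z * (h * g⁻¹).val := by rw [mul_assoc, ← e2]
          _ = x' * (g * (h * g⁻¹)).val := by rw [hg, HG.mul_val g, mul_assoc]
          _ = x' * (g * h * g⁻¹).val := by rw [mul_assoc]
      · rw [e1, rI_mul_H (hX x' hx').1]
    · rintro ⟨x, hx, rfl⟩
      obtain ⟨hxX, h, e⟩ := Finset.mem_filter.1 hx
      exact ⟨x, (hX x hxX).1, rfl, h, e⟩
  unfold tau
  rw [h1, finsum_mem_coe_finset, Finset.sum_image, Finset.sum_filter]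
  · refine Finset.sum_congr rfl (fun x hx => ?_)
    split_ifs with h2
    · obtain ⟨h, e⟩ := h2
      rw [wt_eq hS χ hχ (hX x hx).1 e, ps_eq (hX x hx).1 e, lin_single, one_smul]
    · rw [ps_zero h2, map_zero]
  · intro x hx x' hx' e
    rw [Finset.mem_coe, Finset.mem_filter] at hx hx'
    rw [← (hX x hx.1).2, ← (hX x' hx'.1).2, e]

theorem TT_eq (hS : Star M) (χ : HG f → R) (hχ : ∀ a b, χ (a * b) = χ (b * a))
    {X : Finset M} (hX : ∀ x ∈ X, IsRep f x) (a : MonoidAlgebra R M)
    (ha : ∀ t ∈ a.coeff.support, Good f X t) :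
    TT χ a = ∑ x ∈ X, lin χ (ph (f := f) x x a) := by
  unfold TT ph
  rw [lin_eq_sum _ a _ (le_refl _)]
  have h1 : ∀ x ∈ X, lin χ (lin (ps (f := f) R x x) a) =
      ∑ t ∈ a.coeff.support, a.coeff t • lin χ (ps (f := f) R x x t) := by
    intro x _
    rw [lin_eq_sum _ a _ (le_refl _), map_sum]
    exact Finset.sum_congr rfl (fun t _ => by rw [map_smul])
  rw [Finset.sum_congr rfl h1, Finset.sum_comm]
  refine Finset.sum_congr rfl (fun t ht => ?_)
  rw [tau_eq hS χ hχ hX (ha t ht), Finset.smul_sum]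

theorem mt_trace (hS : Star M) (χ : HG f → R) (hχ : ∀ a b, χ (a * b) = χ (b * a))
    {X : Finset M} (hX : ∀ x ∈ X, IsRep f x) {n : ℕ}
    {E : Matrix (Fin n) (Fin n) (MonoidAlgebra R M)}
    (hE : ∀ i j, ∀ t ∈ (E i j).coeff.support, Good f X t) :
    ∑ a, lin χ (mt (f := f) X E a a) = ∑ i, TT χ (E i i) := by
  rw [Fintype.sum_prod_type]
  refine Finset.sum_congr rfl (fun i _ => ?_)
  rw [TT_eq hS χ hχ hX _ (hE i i)]
  exact Finset.sum_coe_sort X (fun x => lin χ (ph (f := f) x x (E i i)))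

end trace

section coeff

variable {M : Type u} [Monoid M] {f : M} [hf : Idp f] {R : Type w} [CommRing R]

omit hf in
lemma mem_mul_single {a : MonoidAlgebra R M} {t c : M} {r : R}
    (h : (a * single t r).coeff c ≠ 0) : ∃ s ∈ a.coeff.support, c = s * t := by
  classical
  have h1 : a * single t r = ∑ s ∈ a.coeff.support, single (s * t) (a.coeff s * r) := by
    conv_lhs => rw [eq_sum_single a]
    rw [Finset.sum_mul]
    exact Finset.sum_congr rfl (fun s _ => by rw [single_mul_single])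
  rw [h1, coeff_sum, Finsupp.finsetSum_apply] at h
  obtain ⟨s, hs, hne⟩ := Finset.exists_ne_zero_of_sum_ne_zero h
  refine ⟨s, hs, ?_⟩
  by_contra hcon
  apply hne
  rw [coeff_single, Finsupp.single_apply, if_neg (fun e => hcon e.symm)]

lemma ph_coeff {x' x : M} (hx' : LC f x') (a : MonoidAlgebra R M) (h : HG f) :
    (ph (f := f) x' x a).coeff h = (a * single x 1).coeff (x' * h.val) := by
  classical
  induction a using MonoidAlgebra.induction_linear with
  | zero => simp
  | add a a' ha ha' =>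
    rw [map_add, add_mul, coeff_add, coeff_add, Finsupp.add_apply, Finsupp.add_apply, ha, ha']
  | single s r =>
    unfold ph
    rw [lin_single, single_mul_single, mul_one, coeff_single, Finsupp.single_apply, coeff_smul,
      Finsupp.smul_apply]
    by_cases hs : ∃ g : HG f, s * x = x' * g.val
    · obtain ⟨g, hg⟩ := hs
      rw [ps_eq hx' hg, coeff_single, Finsupp.single_apply]
      by_cases hgh : g = h
      · subst hgh
        rw [if_pos rfl, if_pos hg, smul_eq_mul, mul_one]
      · rw [if_neg hgh, smul_zero, if_neg]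
        intro e
        exact hgh (H_inj hx' (by rw [← hg, e]))
    · rw [ps_zero hs, if_neg (fun e => hs ⟨h, e⟩)]
      simp

/-- if the matrix over the group algebra vanishes then the coefficients on the J-class vanish -/
theorem coeff_zero (hS : Star M) {X : Finset M} (hX : ∀ x ∈ X, IsRep f x) {n : ℕ}
    {E : Matrix (Fin n) (Fin n) (MonoidAlgebra R M)}
    (hE : ∀ i j, ∀ t ∈ (E i j).coeff.support, Good f X t)
    (hE' : ∀ i j, ∀ t ∈ (E i j).coeff.support, JLe f t → ∃ x ∈ X, ∃ b, t = x * b)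
    (hEE : E * E = E) (h0 : mt (f := f) X E = 0) {c : M} (hc : JLe f c) (i j : Fin n) :
    (E i j).coeff c = 0 := by
  classical
  rw [← hEE, Matrix.mul_apply, coeff_sum, Finsupp.finsetSum_apply]
  refine Finset.sum_eq_zero (fun k _ => ?_)
  have h1 : E i k * E k j =
      ∑ t ∈ (E k j).coeff.support, E i k * single t ((E k j).coeff t) := by
    conv_lhs => rw [eq_sum_single (E k j)]
    rw [Finset.mul_sum]
  rw [h1, coeff_sum, Finsupp.finsetSum_apply]
  refine Finset.sum_eq_zero (fun t ht => ?_)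
  by_contra hne
  obtain ⟨s, _, hs⟩ := mem_mul_single hne
  have hft : JLe f t := hc.trans (by rw [hs]; exact jLe_mul_left _ _)
  obtain ⟨x, hx, b, hb⟩ := hE' k j t ht hft
  have h2 : E i k * single t ((E k j).coeff t) =
      E i k * single x 1 * single b ((E k j).coeff t) := by
    rw [mul_assoc, single_mul_single, one_mul, ← hb]
  rw [h2] at hne
  obtain ⟨z, hz, hzc⟩ := mem_mul_single hne
  have hz' : (E i k * single x 1).coeff z ≠ 0 := Finsupp.mem_support_iff.1 hz
  obtain ⟨s', hs', hsz⟩ := mem_mul_single hz'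
  have hfz : JLe f (s' * x) := by
    rw [← hsz]
    exact hc.trans (by rw [hzc]; exact jLe_mul_right _ _)
  have hLz : LC f (s' * x) := F1 hS hf.out (hX x hx).1 hfz
  obtain ⟨x', hx', h, hh⟩ := hE i k s' hs' x (hX x hx).1 hLz
  apply hz'
  rw [hsz, hh, ← ph_coeff (hX x' hx').1]
  have h3 : mt (f := f) X E (i, ⟨x', hx'⟩) (k, ⟨x, hx⟩) = 0 := by rw [h0]; rfl
  have h4 : ph (f := f) x' x (E i k) = 0 := h3
  rw [h4]
  simp

end coeff

end Pool.Agent.H656.DFSF
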