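import Mathlib
import Pool.Agent.H656.DFSF.Tr

set_option autoImplicit false

/-!
Lifting modulo powers of a prime.
-/

namespace Pool.Agent.H656.DFSF

open MonoidAlgebra

universe u v w z

/-- `S → T` is onto, its kernel consists of multiples of `p`, and `p ^ m` kills `S` -/
structure PK {S : Type u} {T : Type v} [Ring S] [Ring T] (π : S →+* T) (p m : ℕ) : Prop where
  surj : Function.Surjective π
  ker : ∀ x, π x = 0 → ∃ y, x = p • y
  kill : ∀ x : S, p ^ m • x = 0

section PK

variable {S : Type u} {T : Type v} [Ring S] [Ring T] {π : S →+* T} {p m : ℕ}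

lemma PK.nil (h : PK π p m) {x : S} (hx : π x = 0) : IsNilpotent x := by
  obtain ⟨y, rfl⟩ := h.ker x hx
  exact ⟨m, by rw [smul_pow, h.kill]⟩

lemma PK.isUnit (h : PK π p m) {x : S} (hx : π x = 1) : IsUnit x := by
  have h1 : IsNilpotent (x - 1) := h.nil (by rw [map_sub, hx, map_one, sub_self])
  have h2 := h1.isUnit_one_add
  rwa [add_sub_cancel] at h2

theorem PK.lift_inv (h : PK π p m) {a b : T} (hab : a * b = 1) :
    ∃ a' b' : S, π a' = a ∧ π b' = b ∧ a' * b' = 1 := by
  obtain ⟨a', ha⟩ := h.surj a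
  obtain ⟨b', hb⟩ := h.surj b
  have h1 : IsUnit (a' * b') := h.isUnit (by rw [map_mul, ha, hb, hab])
  obtain ⟨u, hu⟩ := h1
  refine ⟨a', b' * (u⁻¹ : Sˣ), ha, ?_, ?_⟩
  · have h2 : π (u : S) = 1 := by rw [hu, map_mul, ha, hb, hab]
    have h3 : π ((u⁻¹ : Sˣ) : S) = 1 := by
      have h4 : π (u : S) * π ((u⁻¹ : Sˣ) : S) = 1 := by rw [← map_mul, Units.mul_inv, map_one]
      rwa [h2, one_mul] at h4
    rw [map_mul, hb, h3, mul_one]
  · rw [← mul_assoc, ← hu, Units.mul_inv]

theorem PK.lift_idem (h : PK π p m) {e : T} (he : e * e = e) (I : AddSubgroup S)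
    (hI : ∀ x y, y ∈ I → x * y ∈ I) {x : S} (hx : π x = e) (hxI : x ∈ I) :
    ∃ e' : S, π e' = e ∧ e' * e' = e' ∧ e' ∈ I := by
  have h1 : IsNilpotent (x * (1 - x)) := h.nil (by
    rw [map_mul, map_sub, map_one, hx, mul_sub, mul_one, he, sub_self])
  obtain ⟨j, hj⟩ := h1
  have hcomm : Commute x (1 - x) := (Commute.one_right x).sub_right (Commute.refl x)
  have hj' : x ^ (j + 1) * (1 - x) ^ (j + 1) = 0 := by
    rw [← hcomm.mul_pow, pow_succ, hj, zero_mul]
  have hpow : ∀ i, π (x ^ (i + 1)) = e := by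
    intro i
    induction i with
    | zero => rw [zero_add, pow_one, hx]
    | succ i ih => rw [pow_succ, map_mul, ih, hx, he]
  have h1e : ∀ i, (1 - e) ^ (i + 1) = 1 - e := by
    intro i
    induction i with
    | zero => rw [zero_add, pow_one]
    | succ i ih =>
      rw [pow_succ, ih]
      have : (1 - e) * (1 - e) = 1 - e - e + e * e := by noncomm_ring
      rw [this, he]
      abel
  set y := x ^ (j + 1) with hy
  have hyI : y ∈ I := by
    rw [hy, pow_succ]
    exact hI _ _ hxI
  have hmem : ∀ i, 1 - (1 - y) ^ i ∈ I ∧ ∃ z, 1 - (1 - y) ^ i = z * y ∧ Commute z y := by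
    intro i
    induction i with
    | zero => exact ⟨by simp, 0, by simp, Commute.zero_left y⟩
    | succ i ih =>
      obtain ⟨h2, z, hz, hzc⟩ := ih
      have h3 : 1 - (1 - y) ^ (i + 1) = (1 - (1 - y) ^ i) + (1 - y) ^ i * y := by
        rw [pow_succ]
        noncomm_ring
      refine ⟨by rw [h3]; exact I.add_mem h2 (hI _ _ hyI), z + (1 - y) ^ i, ?_, ?_⟩
      · rw [h3, hz, add_mul]
      · exact hzc.add_left (((Commute.one_left y).sub_left (Commute.refl y)).pow_left i)
  obtain ⟨hI1, z, hz, hzc⟩ := hmem (j + 1)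
  refine ⟨1 - (1 - y) ^ (j + 1), ?_, ?_, hI1⟩
  · rw [map_sub, map_one, map_pow, map_sub, map_one, hy, hpow j, h1e]
    abel
  · -- y * (1 - y) ^ (j+1) = 0
    have h4 : ∃ w, 1 - y = (1 - x) * w ∧ Commute (1 - x) w := by
      have : ∀ i, ∃ w, 1 - x ^ i = (1 - x) * w ∧ Commute (1 - x) w := by
        intro i
        refine ⟨∑ l ∈ Finset.range i, x ^ l, ?_, ?_⟩
        · rw [mul_neg_geom_sum]
        · exact Commute.sum_right _ _ _ (fun l _ => hcomm.symm.pow_right l)
      exact this (j + 1)
    obtain ⟨w, hw, hwc⟩ := h4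
    have h5 : y * (1 - y) ^ (j + 1) = 0 := by
      rw [hw, hwc.mul_pow, ← mul_assoc, hj', zero_mul]
    have h6 : (1 - (1 - y) ^ (j + 1)) * (1 - y) ^ (j + 1) = 0 := by
      rw [hz, mul_assoc, h5, mul_zero]
    have h7 : (1 - (1 - y) ^ (j + 1)) * (1 - (1 - y) ^ (j + 1)) =
        (1 - (1 - y) ^ (j + 1)) - (1 - (1 - y) ^ (j + 1)) * (1 - y) ^ (j + 1) := by
      noncomm_ring
    rw [h7, h6, sub_zero]

theorem PK.trace_eq (h : PK π p m) {V : Type w} [AddCommGroup V] (t : S →+ V)
    (ht : ∀ a b, t (a * b) = t (b * a)) {e e' : S} (he : e * e = e) (he' : e' * e' = e')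
    (hee : π e = π e') : t e = t e' := by
  have h1 : IsUnit (1 - e - e' + e' * e + e' * e) := h.isUnit (by
    simp only [map_add, map_sub, map_mul, map_one, hee]
    rw [← map_mul, he']
    abel)
  obtain ⟨u, hu⟩ := h1
  have h2 : e' * (u : S) = (u : S) * e := by
    rw [hu]
    have e1 : e' * (1 - e - e' + e' * e + e' * e) =
      e' - e' * e - e' * e' + e' * e' * e + e' * e' * e := by noncomm_ring
    have e2 : (1 - e - e' + e' * e + e' * e) * e =
      e - e * e - e' * e + e' * (e * e) + e' * (e * e) := by noncomm_ring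
    rw [e1, e2, he, he']
    abel
  have h3 : e' = (u : S) * (e * ((u⁻¹ : Sˣ) : S)) := by
    rw [← mul_assoc, ← h2, mul_assoc, Units.mul_inv, mul_one]
  rw [h3, ht, mul_assoc, Units.inv_mul, mul_one]

theorem PK.monoidAlgebra (h : PK π p m) (Γ : Type w) [Monoid Γ] :
    PK (MonoidAlgebra.mapRingHom Γ π) p m where
  surj := by
    intro a
    induction a using MonoidAlgebra.induction_linear with
    | zero => exact ⟨0, map_zero _⟩
    | add a b ha hb =>
      obtain ⟨a', rfl⟩ := ha
      obtain ⟨b', rfl⟩ := hb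
      exact ⟨a' + b', map_add _ _ _⟩
    | single g r =>
      obtain ⟨r', rfl⟩ := h.surj r
      exact ⟨single g r', by simp⟩
  ker := by
    classical
    intro x hx
    have h1 : ∀ g, ∃ y, x.coeff g = p • y := by
      intro g
      apply h.ker
      have := congrArg (fun z => z.coeff g) hx
      simpa using this
    choose y hy using h1
    refine ⟨∑ g ∈ x.coeff.support, single g (y g), ?_⟩
    rw [Finset.smul_sum]
    ext g
    rw [coeff_sum, Finsupp.finsetSum_apply]
    simp only [coeff_smul, coeff_single, Finsupp.smul_apply, Finsupp.single_apply, smul_ite,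
      smul_zero, ← hy]
    rw [Finset.sum_ite_eq']
    split_ifs with h2
    · rfl
    · exact Finsupp.notMem_support_iff.1 h2
  kill := by
    intro x
    ext g
    rw [coeff_smul, Finsupp.smul_apply, h.kill]
    rfl

theorem PK.matrix (h : PK π p m) (ι : Type w) [Fintype ι] [DecidableEq ι] :
    PK (π.mapMatrix : Matrix ι ι S →+* Matrix ι ι T) p m where
  surj := by
    intro a
    have : ∀ i j, ∃ x, π x = a i j := fun i j => h.surj _
    choose x hx using this
    exact ⟨Matrix.of x, by ext i j; simp [hx]⟩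
  ker := by
    intro x hx
    have h1 : ∀ i j, ∃ y, x i j = p • y := by
      intro i j
      apply h.ker
      have := congrFun (congrFun hx i) j
      simpa using this
    choose y hy using h1
    exact ⟨Matrix.of y, by ext i j; simp [hy]⟩
  kill := by
    intro x
    ext i j
    simp [h.kill]

end PK

section rank

variable {R : Type u} {k : Type v} [CommRing R] [Field k] {π : R →+* k} {p m : ℕ}

/-- the trace of an idempotent matrix is the rank of its reduction -/
theorem PK.trace_rank (h : PK π p m) {ι : Type w} [Fintype ι] [DecidableEq ι] {F : Matrix ι ι R}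
    (hF : F * F = F) :
    ∃ r : ℕ, r ≤ Fintype.card ι ∧ F.trace = r ∧ (r = 0 → F.map π = 0) := by
  classical
  have hG : F.map π * F.map π = F.map π := by rw [← Matrix.map_mul, hF]
  generalize hGdef : F.map π = G at hG
  let W : Submodule k (ι → k) := LinearMap.range G.mulVecLin
  let b := Module.finBasis k W
  have hcol : ∀ j, G.mulVec (Pi.single j 1) ∈ W := fun j => ⟨Pi.single j 1, rfl⟩
  let P : Matrix ι (Fin (Module.finrank k W)) k := fun i a => (b a : ι → k) i
  let Q : Matrix (Fin (Module.finrank k W)) ι k :=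
    fun a j => b.repr ⟨G.mulVec (Pi.single j 1), hcol j⟩ a
  have hPQ : P * Q = G := by
    ext i j
    rw [Matrix.mul_apply]
    have h1 := congrArg (fun w : W => (w : ι → k) i)
      (b.sum_repr ⟨G.mulVec (Pi.single j 1), hcol j⟩)
    simp only [Submodule.coe_sum, Finset.sum_apply, Submodule.coe_smul, Pi.smul_apply,
      smul_eq_mul] at h1
    have h2 : G.mulVec (Pi.single j 1) i = G i j := by
      rw [Matrix.mulVec_single_one]
      rfl
    rw [← h2, ← h1]
    exact Finset.sum_congr rfl (fun a _ => mul_comm _ _)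
  have hQP : Q * P = 1 := by
    ext a c
    rw [Matrix.mul_apply]
    have h1 : (b c : ι → k) = G.mulVec (b c : ι → k) := by
      obtain ⟨v, hv⟩ := (b c).2
      have hv' : G.mulVec v = (b c : ι → k) := hv
      rw [← hv', Matrix.mulVec_mulVec, hG]
    have h2 : (b c : W) = ∑ j, ((b c : ι → k) j) • (⟨G.mulVec (Pi.single j 1), hcol j⟩ : W) := by
      apply Subtype.ext
      rw [Submodule.coe_sum]
      simp only [Submodule.coe_smul]
      nth_rewrite 1 [h1]
      funext i
      rw [Finset.sum_apply, Matrix.mulVec, dotProduct]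
      refine Finset.sum_congr rfl (fun j _ => ?_)
      rw [Pi.smul_apply, Matrix.mulVec_single_one, smul_eq_mul, mul_comm]
      rfl
    have h3 : b.repr (b c) a = ∑ j, ((b c : ι → k) j) *
        b.repr (⟨G.mulVec (Pi.single j 1), hcol j⟩ : W) a := by
      nth_rewrite 1 [h2]
      rw [map_sum, Finsupp.finsetSum_apply]
      refine Finset.sum_congr rfl (fun j _ => ?_)
      rw [map_smul, Finsupp.smul_apply, smul_eq_mul]
    rw [Module.Basis.repr_self, Finsupp.single_apply] at h3
    rw [Matrix.one_apply]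
    have h4 : (if a = c then (1 : k) else 0) = if c = a then (1 : k) else 0 := by
      by_cases hac : a = c
      · rw [if_pos hac, if_pos hac.symm]
      · rw [if_neg hac, if_neg (fun e => hac e.symm)]
    rw [h4, h3]
    exact Finset.sum_congr rfl (fun j _ => mul_comm _ _)
  have hP : ∀ i a, ∃ x, π x = P i a := fun i a => h.surj _
  have hQ : ∀ a i, ∃ x, π x = Q a i := fun i a => h.surj _
  choose P' hP' using hP
  choose Q' hQ' using hQ
  have hPm : (Matrix.of P').map π = P := by ext i a; exact hP' i a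
  have hQm : (Matrix.of Q').map π = Q := by ext i a; exact hQ' i a
  have hu1 : (π.mapMatrix : Matrix _ _ R →+* Matrix _ _ k) (Matrix.of Q' * Matrix.of P') = 1 := by
    rw [RingHom.mapMatrix_apply, Matrix.map_mul, hPm, hQm, hQP]
  obtain ⟨u, hu⟩ := (h.matrix (Fin (Module.finrank k W))).isUnit hu1
  obtain ⟨U', hU1, hU2⟩ : ∃ U' : Matrix (Fin (Module.finrank k W)) (Fin (Module.finrank k W)) R,
      Matrix.of Q' * Matrix.of P' * U' = 1 ∧ U' * (Matrix.of Q' * Matrix.of P') = 1 :=
    ⟨((u⁻¹ : (Matrix (Fin (Module.finrank k W)) (Fin (Module.finrank k W)) R)ˣ) :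
      Matrix (Fin (Module.finrank k W)) (Fin (Module.finrank k W)) R),
      by rw [← hu, Units.mul_inv], by rw [← hu, Units.inv_mul]⟩
  have hu2 : U'.map π = 1 := by
    have h4 : (Matrix.of Q' * Matrix.of P').map π * U'.map π = 1 := by
      rw [← Matrix.map_mul, hU1]
      exact Matrix.map_one _ (map_zero π) (map_one π)
    rw [RingHom.mapMatrix_apply] at hu1
    rwa [hu1, one_mul] at h4
  let D : Matrix ι ι R := Matrix.of P' * U' * Matrix.of Q'
  have hDD : D * D = D := by
    show Matrix.of P' * U' * Matrix.of Q' * (Matrix.of P' * U' * Matrix.of Q') = D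
    rw [Matrix.mul_assoc (Matrix.of P' * U') (Matrix.of Q'),
      ← Matrix.mul_assoc (Matrix.of Q'), ← Matrix.mul_assoc (Matrix.of Q'), hU1,
      Matrix.one_mul]
  have hDm : (π.mapMatrix : Matrix ι ι R →+* Matrix ι ι k) D =
      (π.mapMatrix : Matrix ι ι R →+* Matrix ι ι k) F := by
    rw [RingHom.mapMatrix_apply, RingHom.mapMatrix_apply, hGdef, Matrix.map_mul, Matrix.map_mul,
      hPm, hQm, hu2, Matrix.mul_one, hPQ]
  have htr := (h.matrix ι).trace_eq (Matrix.traceAddMonoidHom ι R)
    (fun a b => Matrix.trace_mul_comm a b) hDD hF hDm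
  have htr' : D.trace = F.trace := htr
  refine ⟨Module.finrank k W, ?_, ?_, ?_⟩
  · exact (Submodule.finrank_le W).trans (by rw [Module.finrank_fintype_fun_eq_card])
  · rw [← htr']
    show (Matrix.of P' * U' * Matrix.of Q').trace = _
    rw [Matrix.mul_assoc, Matrix.trace_mul_comm, Matrix.mul_assoc, hU2,
      Matrix.trace_one, Fintype.card_fin]
  · intro hr
    rw [← hPQ]
    ext i j
    rw [Matrix.mul_apply]
    apply Finset.sum_eq_zero
    intro a _
    exact absurd a.2 (by omega)

end rank

end Pool.Agent.H656.DFSF
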