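import Mathlib
import Pool.Agent.H656.DFSF.Lift

set_option autoImplicit false

/-!
Witt vectors of finite length.
-/

namespace Pool.Agent.H656.DFSF

universe u v w z

open WittVector in
/-- a perfect field of characteristic `p` has lifts in which small numbers do not vanish -/
theorem exists_lift (k : Type v) [Field k] (p : ℕ) [hp : Fact p.Prime] [CharP k p]
    [PerfectRing k p] (B : ℕ) :
    ∃ (R : Type v) (_ : CommRing R) (π : R →+* k) (m : ℕ), PK π p m ∧
      ∀ r : ℕ, r ≤ B → (r : R) = 0 → r = 0 := by
  have hpow : B < p ^ B := Nat.lt_pow_self hp.out.one_lt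
  let I : Ideal (WittVector p k) := Ideal.span {((p : WittVector p k) ^ B)}
  have hI : ∀ a ∈ I, (constantCoeff : WittVector p k →+* k) a = 0 ∨ B = 0 := by
    intro a ha
    rcases Nat.eq_zero_or_pos B with h | h
    · exact Or.inr h
    · left
      exact (mem_span_p_pow_iff_le_coeff_eq_zero a B).1 ha 0 h
  by_cases hB : B = 0
  · -- any lift works
    subst hB
    let I : Ideal (WittVector p k) := Ideal.span {((p : WittVector p k) ^ 1)}
    refine ⟨WittVector p k ⧸ I, inferInstance, Ideal.Quotient.lift I constantCoeff (fun a ha =>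
      (mem_span_p_pow_iff_le_coeff_eq_zero a 1).1 ha 0 one_pos), 1, ⟨?_, ?_, ?_⟩, ?_⟩
    · intro x
      obtain ⟨y, hy⟩ := constantCoeff_surjective p x
      exact ⟨Ideal.Quotient.mk I y, hy⟩
    · intro x hx
      obtain ⟨y, rfl⟩ := Ideal.Quotient.mk_surjective x
      have h1 : (y.coeff 0) = 0 := hx
      refine ⟨0, ?_⟩
      rw [smul_zero]
      apply Ideal.Quotient.eq_zero_iff_mem.2
      rw [mem_span_p_pow_iff_le_coeff_eq_zero]
      intro m hm
      have : m = 0 := by omega
      rw [this, h1]
    · intro x
      obtain ⟨y, rfl⟩ := Ideal.Quotient.mk_surjective x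
      rw [← map_nsmul]
      apply Ideal.Quotient.eq_zero_iff_mem.2
      rw [nsmul_eq_mul]
      apply Ideal.mul_mem_right
      push_cast
      exact Ideal.subset_span rfl
    · intro r hr _
      omega
  · have hI' : ∀ a ∈ I, (constantCoeff : WittVector p k →+* k) a = 0 := fun a ha =>
      (hI a ha).resolve_right hB
    refine ⟨WittVector p k ⧸ I, inferInstance, Ideal.Quotient.lift I constantCoeff hI', B,
      ⟨?_, ?_, ?_⟩, ?_⟩
    · intro x
      obtain ⟨y, hy⟩ := constantCoeff_surjective p x
      exact ⟨Ideal.Quotient.mk I y, hy⟩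
    · intro x hx
      obtain ⟨y, rfl⟩ := Ideal.Quotient.mk_surjective x
      have h1 : (y.coeff 0) = 0 := hx
      have h2 := (mem_span_p_iff_coeff_zero_eq_zero y).2 h1
      obtain ⟨z, hz⟩ := Ideal.mem_span_singleton'.1 h2
      refine ⟨Ideal.Quotient.mk I z, ?_⟩
      rw [← hz, map_mul, map_natCast, nsmul_eq_mul, mul_comm]
    · intro x
      obtain ⟨y, rfl⟩ := Ideal.Quotient.mk_surjective x
      rw [← map_nsmul]
      apply Ideal.Quotient.eq_zero_iff_mem.2
      rw [nsmul_eq_mul]
      apply Ideal.mul_mem_right
      push_cast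
      exact Ideal.subset_span rfl
    · intro r hr h0
      by_contra hne
      have h1 : ((r : WittVector p k)) ∈ I := by
        apply Ideal.Quotient.eq_zero_iff_mem.1
        rw [map_natCast]
        exact h0
      obtain ⟨a, b, hb, hab⟩ := Nat.exists_eq_pow_mul_and_not_dvd hne p hp.out.ne_one
      have hbu : IsUnit (b : WittVector p k) := by
        apply isUnit_of_coeff_zero_ne_zero
        have h2 : (b : WittVector p k).coeff 0 = (b : k) := map_natCast constantCoeff b
        rw [h2]
        intro h3
        exact hb ((CharP.cast_eq_zero_iff k p b).1 h3)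
      have h4 : ((p : WittVector p k) ^ a) ∈ I := by
        rw [hab] at h1
        push_cast at h1
        exact (Ideal.unit_mul_mem_iff_mem _ hbu).1 (by rwa [mul_comm])
      have ha : a < B := by
        by_contra hcon
        have h5 : p ^ B ≤ p ^ a := Nat.pow_le_pow_right hp.out.pos (by omega)
        have hbpos : 0 < b := Nat.pos_of_ne_zero (fun e => hb (by rw [e]; exact dvd_zero p))
        have h6 : p ^ a ≤ r := by
          rw [hab]
          exact Nat.le_mul_of_pos_right _ hbpos
        omega
      have h7 := (mem_span_p_pow_iff_le_coeff_eq_zero ((p : WittVector p k) ^ a) B).1 h4 a ha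
      rw [coeff_p_pow] at h7
      exact one_ne_zero h7

end Pool.Agent.H656.DFSF
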