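import Mathlib
import Pool.Agent.H656.DFSF.Witt

set_option autoImplicit false

/-!
Idempotent matrices over the group algebra whose lifts have vanishing traces.
-/

namespace Pool.Agent.H656.DFSF

open MonoidAlgebra

universe u v w z

/-- A form of residual finiteness of the finitely generated subgroups of `H`, compatible with
conjugacy in `H`: for every finitely generated subgroup `H₀` and `1 ≠ h ∈ H₀` there is a subgroup
`N` of finite index in `H₀` with `h ∉ N`, containing with an element all the elements of `H₀`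
which are conjugate to it in `H`. -/
def ConjRF (H : Type u) [Group H] : Prop :=
  ∀ H0 : Subgroup H, H0.FG → ∀ h ∈ H0, h ≠ 1 →
    ∃ N : Subgroup H, N ≤ H0 ∧ N.relIndex H0 ≠ 0 ∧ h ∉ N ∧ ∀ a ∈ N, ∀ b ∈ H0, IsConj a b → b ∈ N

theorem conjRF_of_residuallyFinite {H : Type u} [Group H] (h : Group.ResiduallyFinite H) :
    ConjRF H := by
  intro H0 _ x hx hx1
  obtain ⟨K, hK⟩ := Group.residuallyFinite_iff_exists_finiteIndexNormalSubgroup.1 h x hx1
  refine ⟨K.toSubgroup ⊓ H0, inf_le_right, ?_, fun hx' => hK hx'.1, ?_⟩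
  · rw [Subgroup.inf_relIndex_right]
    have : K.toSubgroup.index ≠ 0 := K.isFiniteIndex'.index_ne_zero
    intro h0
    exact this (Nat.eq_zero_of_zero_dvd (by rw [← h0]; exact Subgroup.relIndex_dvd_index_of_normal _ _))
  · intro a ha b hb hab
    refine ⟨?_, hb⟩
    obtain ⟨c, hc⟩ := isConj_iff.1 hab
    rw [← hc]
    exact K.isNormal'.conj_mem a ha.1 c

theorem conjRF_of_locallyFinite {H : Type u} [Group H]
    (h : ∀ H0 : Subgroup H, H0.FG → Finite H0) : ConjRF H := by
  intro H0 hfg x hx hx1
  have := h H0 hfg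
  refine ⟨⊥, bot_le, ?_, fun h => hx1 (Subgroup.mem_bot.1 h), ?_⟩
  · rw [Subgroup.relIndex_bot_left]
    exact Nat.card_ne_zero.2 ⟨inferInstance, inferInstance⟩
  · intro a ha b _ hab
    rw [Subgroup.mem_bot] at ha ⊢
    subst ha
    obtain ⟨c, hc⟩ := isConj_iff.1 hab
    rw [← hc]
    group

/-- finitely many elements can be separated at once -/
theorem ConjRF.sep {H : Type u} [Group H] (hH : ConjRF H) (H0 : Subgroup H) (hfg : H0.FG)
    (D : Finset H) (hD : ∀ h ∈ D, h ∈ H0 ∧ h ≠ 1) :
    ∃ N : Subgroup H, N ≤ H0 ∧ N.relIndex H0 ≠ 0 ∧ (∀ h ∈ D, h ∉ N) ∧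
      ∀ a ∈ N, ∀ b ∈ H0, IsConj a b → b ∈ N := by
  classical
  induction D using Finset.induction_on with
  | empty =>
    refine ⟨H0, le_refl _, ?_, by simp, fun _ _ b hb _ => hb⟩
    rw [Subgroup.relIndex_self]
    exact one_ne_zero
  | insert x D hx ih =>
    obtain ⟨N, h1, h2, h3, h4⟩ := ih (fun h hh => hD h (Finset.mem_insert_of_mem hh))
    obtain ⟨hx0, hx1⟩ := hD x (Finset.mem_insert_self x D)
    obtain ⟨N', h1', h2', h3', h4'⟩ := hH H0 hfg x hx0 hx1
    refine ⟨N ⊓ N', inf_le_left.trans h1, Subgroup.relIndex_inf_ne_zero h2 h2', ?_, ?_⟩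
    · intro h hh hmem
      rcases Finset.mem_insert.1 hh with rfl | hh
      · exact h3' hmem.2
      · exact h3 h hh hmem.1
    · intro a ha b hb hab
      exact ⟨h4 a ha.1 b hb hab, h4' a ha.2 b hb hab⟩

section perm

variable {G : Type u} [Group G] {Y : Type w} [Fintype Y] [DecidableEq Y] [MulAction G Y]

variable (G Y) in
/-- the permutation representation by matrices -/
def permHom (R : Type v) [CommRing R] : G →* Matrix Y Y R where
  toFun g := Matrix.of fun x y => if g • y = x then 1 else 0
  map_one' := by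
    ext x y
    rw [Matrix.of_apply, one_smul, Matrix.one_apply]
    by_cases h : y = x
    · rw [if_pos h, if_pos h.symm]
    · rw [if_neg h, if_neg (fun e => h e.symm)]
  map_mul' g h := by
    ext x y
    rw [Matrix.of_apply, Matrix.mul_apply, Finset.sum_eq_single (h • y)]
    · rw [Matrix.of_apply, Matrix.of_apply, if_pos rfl, mul_one, mul_smul]
    · intro z _ hz
      rw [Matrix.of_apply, Matrix.of_apply, if_neg (fun e : h • y = z => hz e.symm), mul_zero]
    · intro hcon
      exact absurd (Finset.mem_univ _) hcon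

variable (G Y) in
/-- the permutation representation of the group algebra -/
noncomputable def permRep (R : Type v) [CommRing R] :
    MonoidAlgebra R G →ₐ[R] Matrix Y Y R :=
  MonoidAlgebra.lift R (Matrix Y Y R) G (permHom G Y R)

lemma permRep_single (R : Type v) [CommRing R] (g : G) (r : R) (x y : Y) :
    permRep G Y R (single g r) x y = if g • y = x then r else 0 := by
  unfold permRep
  rw [MonoidAlgebra.lift_single, Matrix.smul_apply]
  show r • (if g • y = x then (1 : R) else 0) = _
  rw [smul_ite, smul_zero, smul_eq_mul, mul_one]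

lemma permRep_map {R : Type v} {k : Type z} [CommRing R] [CommRing k] (π : R →+* k)
    (a : MonoidAlgebra R G) :
    permRep G Y k (MonoidAlgebra.mapRingHom G π a) = (permRep G Y R a).map π := by
  induction a using MonoidAlgebra.induction_linear with
  | zero => ext; simp
  | add a b ha hb => rw [map_add, map_add, map_add, ha, hb]; ext; simp
  | single g r =>
    ext x y
    rw [mapRingHom_single, permRep_single, Matrix.map_apply, permRep_single, apply_ite π, map_zero]

/-- the number of fixed points -/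
noncomputable def fixn (R : Type v) [CommRing R] (g : G) : R :=
  ∑ y : Y, if g • y = y then 1 else 0

lemma permRep_trace (R : Type v) [CommRing R] (a : MonoidAlgebra R G) :
    (permRep G Y R a).trace = lin (fixn (Y := Y) R) a := by
  induction a using MonoidAlgebra.induction_linear with
  | zero => simp
  | add a b ha hb => rw [map_add, map_add, Matrix.trace_add, ha, hb]
  | single g r =>
    rw [lin_single, Matrix.trace]
    unfold fixn
    rw [smul_eq_mul, Finset.mul_sum]
    refine Finset.sum_congr rfl (fun y _ => ?_)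
    rw [Matrix.diag_apply, permRep_single, mul_ite, mul_one, mul_zero]

/-- the big matrix -/
noncomputable def bigm {R : Type v} [CommRing R] {κ : Type z} (e : Matrix κ κ (MonoidAlgebra R G)) :
    Matrix (κ × Y) (κ × Y) R := fun a b => permRep G Y R (e a.1 b.1) a.2 b.2

lemma bigm_idem {R : Type v} [CommRing R] {κ : Type z} [Fintype κ]
    {e : Matrix κ κ (MonoidAlgebra R G)} (he : e * e = e) :
    bigm (Y := Y) e * bigm (Y := Y) e = bigm (Y := Y) e := by
  ext a b
  rw [Matrix.mul_apply, Fintype.sum_prod_type]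
  unfold bigm
  simp only
  have h1 : ∀ j : κ, ∑ y : Y, permRep G Y R (e a.1 j) a.2 y * permRep G Y R (e j b.1) y b.2 =
      permRep G Y R (e a.1 j * e j b.1) a.2 b.2 := by
    intro j
    rw [map_mul, Matrix.mul_apply]
  rw [Finset.sum_congr rfl (fun j _ => h1 j)]
  rw [← Matrix.sum_apply, ← map_sum, ← Matrix.mul_apply, he]

lemma bigm_trace {R : Type v} [CommRing R] {κ : Type z} [Fintype κ]
    (e : Matrix κ κ (MonoidAlgebra R G)) :
    (bigm (Y := Y) e).trace = ∑ i, lin (fixn (Y := Y) R) (e i i) := by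
  rw [Matrix.trace, Fintype.sum_prod_type]
  refine Finset.sum_congr rfl (fun i _ => ?_)
  rw [← permRep_trace, Matrix.trace]
  rfl

lemma permRep_apply (R : Type v) [CommRing R] (a : MonoidAlgebra R G) (x y : Y) :
    permRep G Y R a x y = ∑ g ∈ a.coeff.support, if g • y = x then a.coeff g else 0 := by
  classical
  conv_lhs => rw [eq_sum_single a]
  rw [map_sum, Matrix.sum_apply]
  exact Finset.sum_congr rfl (fun g _ => permRep_single R g _ x y)

end perm

section incl

variable {H : Type u} [Group H] (H0 : Subgroup H) (A : Type v) [CommRing A]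

open Classical in
/-- the retraction -/
noncomputable def rt : MonoidAlgebra A H →ₗ[A] MonoidAlgebra A H0 :=
  lin (fun h => if hh : h ∈ H0 then single ⟨h, hh⟩ 1 else 0)

/-- the inclusion -/
noncomputable def inc : MonoidAlgebra A H0 →+* MonoidAlgebra A H :=
  MonoidAlgebra.mapDomainRingHom A H0.subtype

variable {A H0}

lemma inc_single (h : H0) (r : A) : inc H0 A (single h r) = single (h : H) r := by
  unfold inc
  simp

lemma inc_rt {a : MonoidAlgebra A H} (ha : ∀ h ∈ a.coeff.support, h ∈ H0) :
    inc H0 A (rt H0 A a) = a := by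
  classical
  conv_rhs => rw [eq_sum_single a]
  unfold rt
  rw [lin_eq_sum _ a _ (le_refl _), map_sum]
  refine Finset.sum_congr rfl (fun h hh => ?_)
  rw [dif_pos (ha h hh)]
  have : a.coeff h • (single (⟨h, ha h hh⟩ : H0) (1 : A)) = single ⟨h, ha h hh⟩ (a.coeff h) := by
    ext; simp
  rw [this, inc_single]

lemma inc_inj : Function.Injective (inc H0 A) := by
  intro a b hab
  have h1 : ∀ a : MonoidAlgebra A H0, rt H0 A (inc H0 A a) = a := by
    intro a
    induction a using MonoidAlgebra.induction_linear with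
    | zero => simp
    | add a b ha hb => rw [map_add, map_add, ha, hb]
    | single g r =>
      rw [inc_single]
      unfold rt
      rw [lin_single, dif_pos g.2]
      ext; simp
  rw [← h1 a, hab, h1]

lemma lin_inc (χ : H → A) (a : MonoidAlgebra A H0) :
    lin χ (inc H0 A a) = lin (fun h : H0 => χ h) a := by
  induction a using MonoidAlgebra.induction_linear with
  | zero => simp
  | add a b ha hb => rw [map_add, map_add, map_add, ha, hb]
  | single g r => rw [inc_single, lin_single, lin_single]

lemma inc_coeff (a : MonoidAlgebra A H0) (h : H0) :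
    (inc H0 A a).coeff (h : H) = a.coeff h := by
  classical
  induction a using MonoidAlgebra.induction_linear with
  | zero => simp
  | add a b ha hb => rw [map_add, coeff_add, coeff_add, Finsupp.add_apply, Finsupp.add_apply, ha, hb]
  | single g r =>
    rw [inc_single, coeff_single, coeff_single, Finsupp.single_apply, Finsupp.single_apply]
    simp only [Subtype.ext_iff]

end incl

section trz

variable {H : Type u} [Group H] {A : Type v} [CommRing A] {κ : Type w} [Fintype κ]

/-- all traces vanish -/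
def TrZ (e : Matrix κ κ (MonoidAlgebra A H)) : Prop :=
  ∀ χ : H → A, (∀ a b, χ (a * b) = χ (b * a)) → ∑ i, lin χ (e i i) = 0

lemma lin_comm (χ : H → A) (hχ : ∀ a b, χ (a * b) = χ (b * a)) (a b : MonoidAlgebra A H) :
    lin χ (a * b) = lin χ (b * a) := by
  induction a using MonoidAlgebra.induction_linear with
  | zero => simp
  | add a a' ha ha' => rw [add_mul, mul_add, map_add, map_add, ha, ha']
  | single s r =>
    induction b using MonoidAlgebra.induction_linear with
    | zero => simp
    | add a b ha hb => rw [add_mul, mul_add, map_add, map_add, ha, hb]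
    | single t c =>
      rw [single_mul_single, single_mul_single, lin_single, lin_single, hχ, mul_comm r c]

/-- the matrix trace followed by an additive map -/
def mtr {S : Type v} [Ring S] {V : Type z} [AddCommGroup V] (κ : Type w) [Fintype κ] (t : S →+ V) :
    Matrix κ κ S →+ V where
  toFun x := ∑ i, t (x i i)
  map_zero' := by simp
  map_add' x y := by simp [Finset.sum_add_distrib]

end trz

theorem group_zero {H : Type u} [Group H] (hH : ConjRF H) {k : Type v} [Field k] (p : ℕ)
    {κ : Type w} [Fintype κ] [DecidableEq κ]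
    (e : Matrix κ κ (MonoidAlgebra k H)) (he : e * e = e)
    (hlift : ∀ B : ℕ, ∃ (R : Type v) (_ : CommRing R) (π : R →+* k) (m : ℕ), PK π p m ∧
      (∀ r : ℕ, r ≤ B → (r : R) = 0 → r = 0) ∧
      ∃ e' : Matrix κ κ (MonoidAlgebra R H), e' * e' = e' ∧
        (MonoidAlgebra.mapRingHom H π).mapMatrix e' = e ∧ TrZ e') : e = 0 := by
  classical
  let Ss : Finset H := Finset.univ.biUnion (fun q : κ × κ => (e q.1 q.2).coeff.support)
  have hSs : ∀ i j, ∀ h ∈ (e i j).coeff.support, h ∈ Ss := by
    intro i j h hh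
    exact Finset.mem_biUnion.2 ⟨(i, j), Finset.mem_univ _, hh⟩
  let H0 : Subgroup H := Subgroup.closure (Ss : Set H)
  have hfg : H0.FG := ⟨Ss, rfl⟩
  have hSH : ∀ h ∈ Ss, h ∈ H0 := fun h hh => Subgroup.subset_closure hh
  obtain ⟨N, hN1, hN2, hN3, hN4⟩ := hH.sep H0 hfg
    (((Ss ×ˢ Ss).image (fun q => q.1⁻¹ * q.2)).filter (fun h => h ≠ 1)) (by
      intro h hh
      obtain ⟨hh1, hh2⟩ := Finset.mem_filter.1 hh
      obtain ⟨q, hq, rfl⟩ := Finset.mem_image.1 hh1
      obtain ⟨hq1, hq2⟩ := Finset.mem_product.1 hq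
      exact ⟨H0.mul_mem (H0.inv_mem (hSH _ hq1)) (hSH _ hq2), hh2⟩)
  have hfi : (N.subgroupOf H0).FiniteIndex := ⟨hN2⟩
  let Y := H0 ⧸ N.subgroupOf H0
  let _ : Fintype Y := Fintype.ofFinite _
  obtain ⟨R, _, π, m, hπ, hB, e', he', hee', htr⟩ := hlift (Fintype.card (κ × Y))
  let e0 : Matrix κ κ (MonoidAlgebra k H0) := fun i j => rt H0 k (e i j)
  have hince0 : (inc H0 k).mapMatrix e0 = e := by
    ext1 i j
    exact inc_rt (fun h hh => hSH h (hSs i j h hh))
  have he0 : e0 * e0 = e0 := by
    have hinj : Function.Injective ((inc H0 k).mapMatrix : Matrix κ κ _ →+* Matrix κ κ _) := by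
      intro a b hab
      ext1 i j
      exact inc_inj (congrFun (congrFun hab i) j)
    apply hinj
    rw [map_mul, hince0, he]
  obtain ⟨x0, hx0⟩ := ((hπ.monoidAlgebra H0).matrix κ).surj e0
  obtain ⟨e0', he0m, he0', -⟩ := ((hπ.monoidAlgebra H0).matrix κ).lift_idem he0 ⊤
    (fun _ _ _ => trivial) hx0 trivial
  have he1 : (inc H0 R).mapMatrix e0' * (inc H0 R).mapMatrix e0' = (inc H0 R).mapMatrix e0' := by
    rw [← map_mul, he0']
  have he1m : (MonoidAlgebra.mapRingHom H π).mapMatrix ((inc H0 R).mapMatrix e0') = e := by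
    rw [← hince0, ← he0m]
    ext1 i j
    exact congrArg (fun φ : MonoidAlgebra R H0 →+* MonoidAlgebra k H => φ (e0' i j))
      (MonoidAlgebra.mapRingHom_comp_mapDomainRingHom π H0.subtype)
  let χ : H → R := fun h => if ∃ a ∈ N, IsConj a h then (Fintype.card Y : R) else 0
  have hχ : ∀ a b, χ (a * b) = χ (b * a) := by
    intro a b
    have h1 : IsConj (a * b) (b * a) := isConj_iff.2 ⟨a⁻¹, by group⟩
    have h2 : (∃ c ∈ N, IsConj c (a * b)) ↔ ∃ c ∈ N, IsConj c (b * a) :=
      ⟨fun ⟨c, hc, h⟩ => ⟨c, hc, h.trans h1⟩, fun ⟨c, hc, h⟩ => ⟨c, hc, h.trans h1.symm⟩⟩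
    simp only [χ, h2]
  have hχ0 : ∀ h : H0, χ h = fixn (Y := Y) R h := by
    intro h
    have h1 : (∃ a ∈ N, IsConj a (h : H)) ↔ (h : H) ∈ N :=
      ⟨fun ⟨a, ha, hah⟩ => hN4 a ha h h.2 hah, fun hh => ⟨h, hh, IsConj.refl _⟩⟩
    have h2 : ∀ y : Y, h • y = y ↔ (h : H) ∈ N := by
      intro y
      obtain ⟨g, rfl⟩ := QuotientGroup.mk_surjective y
      have h3 : h • (QuotientGroup.mk g : Y) = QuotientGroup.mk (h * g) := rfl
      rw [h3, QuotientGroup.eq, Subgroup.mem_subgroupOf]
      have h4 : IsConj (((h * g)⁻¹ * g : H0) : H) ((h⁻¹ : H0) : H) :=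
        isConj_iff.2 ⟨(g : H), by push_cast; group⟩
      constructor
      · intro h5
        have h6 := hN4 _ h5 _ (h⁻¹).2 h4
        have h7 := N.inv_mem h6
        simpa using h7
      · intro h5
        have h6 : ((h⁻¹ : H0) : H) ∈ N := by
          push_cast
          exact N.inv_mem h5
        exact hN4 _ h6 _ ((h * g)⁻¹ * g).2 h4.symm
    unfold fixn
    simp only [χ, h1, h2]
    split_ifs with h3
    · rw [Finset.sum_const, Finset.card_univ, nsmul_eq_mul, mul_one]
    · rw [Finset.sum_const_zero]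
  have htrace : (bigm (Y := Y) e0').trace = 0 := by
    rw [bigm_trace]
    have h1 : ∀ i, lin (fixn (Y := Y) R) (e0' i i) = lin χ ((inc H0 R).mapMatrix e0' i i) := by
      intro i
      rw [RingHom.mapMatrix_apply, Matrix.map_apply, lin_inc]
      congr 2
      funext h
      exact (hχ0 h).symm
    rw [Finset.sum_congr rfl (fun i _ => h1 i)]
    have h2 := ((hπ.monoidAlgebra H).matrix κ).trace_eq (mtr κ (lin χ).toAddMonoidHom)
      (fun a b => trace_comm' (lin χ).toAddMonoidHom (lin_comm χ hχ) a b) he1 he'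
      (by rw [he1m, hee'])
    have h3 : ∑ i, lin χ ((inc H0 R).mapMatrix e0' i i) = ∑ i, lin χ (e' i i) := h2
    rw [h3]
    exact htr χ hχ
  obtain ⟨r, hr1, hr2, hr3⟩ := hπ.trace_rank (bigm_idem (Y := Y) he0')
  rw [htrace] at hr2
  have hr0 : r = 0 := hB r hr1 hr2.symm
  have hF := hr3 hr0
  have hF' : ∀ i j (x y : Y), permRep H0 Y k (e0 i j) x y = 0 := by
    intro i j x y
    have h1 : e0 i j = MonoidAlgebra.mapRingHom H0 π (e0' i j) := by
      rw [← he0m]
      rfl
    rw [h1, permRep_map, Matrix.map_apply]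
    exact congrFun (congrFun hF (i, x)) (j, y)
  have he00 : e0 = 0 := by
    ext i j h0
    by_contra hne
    have hne' : (e0 i j).coeff h0 ≠ 0 := hne
    have hmem : ∀ h : H0, (e0 i j).coeff h ≠ 0 → (h : H) ∈ Ss := by
      intro h hh
      apply hSs i j
      rw [Finsupp.mem_support_iff, ← hince0]
      rw [← inc_coeff] at hh
      exact hh
    apply hne'
    have h1 := hF' i j (QuotientGroup.mk h0) (QuotientGroup.mk 1)
    rw [permRep_apply, Finset.sum_eq_single h0] at h1
    · have h2 : h0 • (QuotientGroup.mk 1 : Y) = QuotientGroup.mk (h0 * 1) := rfl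
      rwa [h2, mul_one, if_pos rfl] at h1
    · intro h hh hneq
      have h2 : h • (QuotientGroup.mk 1 : Y) = QuotientGroup.mk (h * 1) := rfl
      rw [h2, mul_one, if_neg]
      intro h3
      rw [QuotientGroup.eq, Subgroup.mem_subgroupOf] at h3
      refine hN3 ((h : H)⁻¹ * (h0 : H)) ?_ (by push_cast at h3; exact h3)
      refine Finset.mem_filter.2 ⟨Finset.mem_image.2 ⟨((h : H), (h0 : H)),
        Finset.mem_product.2 ⟨hmem h (Finsupp.mem_support_iff.1 hh), hmem h0 hne'⟩, rfl⟩, ?_⟩
      intro h4
      apply hneq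
      apply Subtype.ext
      exact inv_mul_eq_one.1 h4
    · intro h
      exact Finsupp.notMem_support_iff.1 h ▸ (by simp)
  rw [← hince0, he00, map_zero]

end Pool.Agent.H656.DFSF
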