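import Mathlib
import Pool.Agent.H656.DFSF.Tr
import Pool.Agent.H26R2.IdemLI.Cls

set_option autoImplicit false

/-!
Characteristic zero.
-/

namespace Pool.Agent.H656.DFSF

open MonoidAlgebra

universe u v w z

/-- Kaplansky's theorem for matrices indexed by a finite type -/
theorem kap' {K : Type v} [Field K] [CharZero K] {G : Type u} [Group G] {ι : Type w} [Fintype ι]
    (E : Matrix ι ι (MonoidAlgebra K G)) (hE : E * E = E)
    (h0 : ∑ i, (E i i).coeff 1 = 0) : E = 0 := by
  classical
  have h1 : E.submatrix (Fintype.equivFin ι).symm (Fintype.equivFin ι).symm = 0 := by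
    apply Pool.Agent.H26R2.IdemLI.kaplansky
    · rw [Matrix.submatrix_mul_equiv, hE]
    · rw [coeff_sum, Finsupp.finsetSum_apply, ← h0]
      exact Equiv.sum_comp (Fintype.equivFin ι).symm (fun i => (E i i).coeff 1)
  ext1 i j
  have h2 := congrFun (congrFun h1 (Fintype.equivFin ι i)) (Fintype.equivFin ι j)
  simpa using h2

section

variable {M : Type u} [Monoid M] {R : Type w} [CommRing R]

/-- The choice of the idempotent: for a nonzero idempotent matrix there is a class meeting the
support, maximal, and containing an idempotent. -/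
theorem exists_class (hS : Star M) {n : ℕ} {E : Matrix (Fin n) (Fin n) (MonoidAlgebra R M)}
    (hEE : E * E = E) (hne : E ≠ 0) :
    ∃ f : M, f * f = f ∧ (∃ i j c, (E i j).coeff c ≠ 0 ∧ JLe f c) ∧
      ∀ i j, ∀ t ∈ (E i j).coeff.support, JLe f t → JLe t f := by
  classical
  let S : Finset M := Finset.univ.biUnion (fun p : Fin n × Fin n => (E p.1 p.2).coeff.support)
  have hmemS : ∀ t, t ∈ S ↔ ∃ i j, t ∈ (E i j).coeff.support := by
    intro t
    simp only [S, Finset.mem_biUnion, Finset.mem_univ, true_and, Prod.exists]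
  have hSne : S.Nonempty := by
    by_contra hcon
    rw [Finset.not_nonempty_iff_eq_empty] at hcon
    apply hne
    ext i j t
    by_contra h
    have : t ∈ S := (hmemS t).2 ⟨i, j, Finsupp.mem_support_iff.2 h⟩
    rw [hcon] at this
    exact absurd this (Finset.notMem_empty _)
  obtain ⟨c, hcS, hcm⟩ := exists_max (JLe (M := M)) JLe.refl (fun a b c => JLe.trans) S hSne
  obtain ⟨f, hff, hcf, hfc⟩ := exists_idem hS (S.filter (fun x => JLe c x))
    ⟨c, Finset.mem_filter.2 ⟨hcS, JLe.refl c⟩⟩ c
    (fun x hx => ⟨(Finset.mem_filter.1 hx).2,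
      hcm x (Finset.mem_filter.1 hx).1 (Finset.mem_filter.1 hx).2⟩)
    (by
      intro t ht
      obtain ⟨htS, hct⟩ := Finset.mem_filter.1 ht
      obtain ⟨i, j, hij⟩ := (hmemS t).1 htS
      rw [Finsupp.mem_support_iff, ← hEE, Matrix.mul_apply, coeff_sum,
        Finsupp.finsetSum_apply] at hij
      obtain ⟨k, _, hk⟩ := Finset.exists_ne_zero_of_sum_ne_zero hij
      have h1 : E i k * E k j =
          ∑ t ∈ (E k j).coeff.support, E i k * single t ((E k j).coeff t) := by
        conv_lhs => rw [eq_sum_single (E k j)]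
        rw [Finset.mul_sum]
      rw [h1, coeff_sum, Finsupp.finsetSum_apply] at hk
      obtain ⟨t', ht', hk'⟩ := Finset.exists_ne_zero_of_sum_ne_zero hk
      obtain ⟨s, hs, hst⟩ := mem_mul_single hk'
      refine ⟨s, Finset.mem_filter.2 ⟨(hmemS s).2 ⟨i, k, hs⟩, ?_⟩, t',
        Finset.mem_filter.2 ⟨(hmemS t').2 ⟨k, j, ht'⟩, ?_⟩, hst⟩
      · exact hct.trans (by rw [hst]; exact jLe_mul_right _ _)
      · exact hct.trans (by rw [hst]; exact jLe_mul_left _ _))
  refine ⟨f, hff, ?_, ?_⟩
  · obtain ⟨i, j, hij⟩ := (hmemS c).1 hcS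
    exact ⟨i, j, c, Finsupp.mem_support_iff.1 hij, hfc⟩
  · intro i j t ht hft
    exact (hcm t ((hmemS t).2 ⟨i, j, ht⟩) (hcf.trans hft)).trans hcf

/-- the set of representatives for a matrix -/
theorem exists_good' (hS : Star M) {f : M} [hf : Idp f] {n : ℕ}
    (E : Matrix (Fin n) (Fin n) (MonoidAlgebra R M))
    (hN : ∀ i j, ∀ t ∈ (E i j).coeff.support, JLe f t → JLe t f) :
    ∃ X : Finset M, (∀ x ∈ X, IsRep f x) ∧ (∀ i j, ∀ t ∈ (E i j).coeff.support, Good f X t) ∧
      (∀ i j, ∀ t ∈ (E i j).coeff.support, JLe f t → ∃ x ∈ X, ∃ b, t = x * b) := by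
  classical
  let S : Finset M := Finset.univ.biUnion (fun p : Fin n × Fin n => (E p.1 p.2).coeff.support)
  have hmemS : ∀ t, t ∈ S ↔ ∃ i j, t ∈ (E i j).coeff.support := by
    intro t
    simp only [S, Finset.mem_biUnion, Finset.mem_univ, true_and, Prod.exists]
  obtain ⟨X, h1, h2, h3⟩ := exists_good hS S (by
    intro s hs
    obtain ⟨i, j, hij⟩ := (hmemS s).1 hs
    exact hN i j s hij)
  exact ⟨X, h1, fun i j t ht => h2 t ((hmemS t).2 ⟨i, j, ht⟩),
    fun i j t ht => h3 t ((hmemS t).2 ⟨i, j, ht⟩)⟩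

end

/-- **Characteristic zero.** -/
theorem stably_finite_charZero {M : Type u} [Monoid M] (hS : Star M) {K : Type v} [Field K]
    [CharZero K] {n : ℕ} (A B : Matrix (Fin n) (Fin n) (MonoidAlgebra K M)) (hAB : A * B = 1) :
    B * A = 1 := by
  classical
  by_contra hne
  have hE0 : (1 - B * A) ≠ 0 := fun h => hne (sub_eq_zero.1 h).symm
  have hEE : (1 - B * A) * (1 - B * A) = 1 - B * A := by
    have : (1 - B * A) * (1 - B * A) = 1 - B * A - B * A + B * (A * B) * A := by noncomm_ring
    rw [this, hAB]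
    noncomm_ring
  obtain ⟨f, hff, ⟨i0, j0, c, hc, hfc⟩, hN⟩ := exists_class hS hEE hE0
  have : Idp f := ⟨hff⟩
  obtain ⟨X, hX, hG, hG'⟩ := exists_good' hS (f := f) (1 - B * A) hN
  apply hc
  refine coeff_zero hS hX hG hG' hEE ?_ hfc i0 j0
  refine kap' _ (mt_idem hX hG hEE) ?_
  have hχ : ∀ a b : HG f, (fun g : HG f => if g = 1 then (1 : K) else 0) (a * b) =
      (fun g : HG f => if g = 1 then (1 : K) else 0) (b * a) := by
    intro a b
    have h1 : a * b = 1 ↔ b * a = 1 := mul_eq_one_iff_eq_inv.trans eq_inv_iff_mul_eq_one.symm.symm |>.trans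
      (by constructor
          · intro h; exact mul_eq_one_comm.1 h
          · intro h; exact mul_eq_one_comm.1 h)
    simp only [h1]
  have h2 := mt_trace hS (fun g : HG f => if g = 1 then (1 : K) else 0) hχ hX hG
  have h3 : ∀ a : MonoidAlgebra K (HG f),
      lin (fun g : HG f => if g = 1 then (1 : K) else 0) a = a.coeff 1 := by
    intro a
    induction a using MonoidAlgebra.induction_linear with
    | zero => simp
    | add a b ha hb => rw [map_add, ha, hb, coeff_add, Finsupp.add_apply]
    | single g r =>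
      rw [lin_single, coeff_single, Finsupp.single_apply, smul_eq_mul, mul_ite, mul_one, mul_zero]
  simp only [h3] at h2
  rw [h2]
  have h4 : ∀ i, TT (fun g : HG f => if g = 1 then (1 : K) else 0) ((1 - B * A) i i) =
      TT (fun g : HG f => if g = 1 then (1 : K) else 0) ((1 : Matrix (Fin n) (Fin n) (MonoidAlgebra K M)) i i) -
      TT (fun g : HG f => if g = 1 then (1 : K) else 0) ((B * A) i i) := by
    intro i
    rw [Matrix.sub_apply, map_sub]
  rw [Finset.sum_congr rfl (fun i _ => h4 i), Finset.sum_sub_distrib]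
  have h5 := trace_comm' (TT (fun g : HG f => if g = 1 then (1 : K) else 0)).toAddMonoidHom
    (fun a b => TT_comm hS _ hχ a b) B A
  rw [hAB] at h5
  have h6 : ∑ i, TT (fun g : HG f => if g = 1 then (1 : K) else 0) ((B * A) i i) =
      ∑ i, TT (fun g : HG f => if g = 1 then (1 : K) else 0)
        ((1 : Matrix (Fin n) (Fin n) (MonoidAlgebra K M)) i i) := h5
  rw [h6, sub_self]

end Pool.Agent.H656.DFSF
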