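import Mathlib
import Pool.Agent.H656.DFSF.Grp
import Pool.Agent.H656.DFSF.Main

set_option autoImplicit false

/-!
Positive characteristic.
-/

namespace Pool.Agent.H656.DFSF

open MonoidAlgebra

universe u v w z

section rect

lemma trace_comm_rect {A : Type v} [Ring A] {V : Type z} [AddCommGroup V] (t : A →+ V)
    (ht : ∀ a b, t (a * b) = t (b * a)) {ι : Type w} {κ : Type u} [Fintype ι] [Fintype κ]
    (P : Matrix ι κ A) (Q : Matrix κ ι A) : ∑ i, t ((P * Q) i i) = ∑ i, t ((Q * P) i i) := by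
  simp only [Matrix.mul_apply, map_sum]
  rw [Finset.sum_comm]
  exact Finset.sum_congr rfl (fun i _ => Finset.sum_congr rfl (fun j _ => ht _ _))

theorem extend_trace {S : Type v} {T : Type w} [Ring S] [Ring T] {π : S →+* T} {p m : ℕ}
    (h : PK π p m) {V : Type z} [AddCommGroup V] (t : S →+ V)
    (ht : ∀ a b, t (a * b) = t (b * a)) {ι κ : Type u} [Fintype ι] [Fintype κ] [DecidableEq ι]
    [DecidableEq κ] {e : Matrix κ κ S} (he : e * e = e) {F : Matrix ι ι S} (hF : F * F = F)
    (J : Matrix ι κ S) (J' : Matrix κ ι S) (hJ : J' * J = 1)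
    (hred : (J * e * J').map π = F.map π) : ∑ j, t (e j j) = ∑ i, t (F i i) := by
  have h1 : (J * e * J') * (J * e * J') = J * e * J' := by
    calc (J * e * J') * (J * e * J') = J * e * (J' * J) * (e * J') := by
          simp only [Matrix.mul_assoc]
      _ = J * (e * e) * J' := by rw [hJ, Matrix.mul_one]; simp only [Matrix.mul_assoc]
      _ = J * e * J' := by rw [he]
  have h2 := (h.matrix ι).trace_eq (mtr ι t) (fun a b => trace_comm' t ht a b) h1 hF hred
  have h3 : ∑ i, t ((J * e * J') i i) = ∑ i, t (F i i) := h2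
  rw [← h3, Matrix.mul_assoc, trace_comm_rect t ht, Matrix.mul_assoc, hJ, Matrix.mul_one]

end rect

section

variable {M : Type u} [Monoid M]

/-- the matrices supported in the ideal of the elements not strictly above `f` -/
def IdN (f : M) (R : Type v) [CommRing R] (n : ℕ) :
    AddSubgroup (Matrix (Fin n) (Fin n) (MonoidAlgebra R M)) where
  carrier := {x | ∀ i j t, (x i j).coeff t ≠ 0 → JLe f t → JLe t f}
  zero_mem' := by
    intro i j t h
    exact absurd rfl h
  add_mem' := by
    intro a b ha hb i j t h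
    by_cases h1 : (a i j).coeff t = 0
    · apply hb i j t
      intro h2
      apply h
      rw [Matrix.add_apply, coeff_add, Finsupp.add_apply, h1, h2, add_zero]
    · exact ha i j t h1
  neg_mem' := by
    intro a ha i j t h
    apply ha i j t
    intro h2
    apply h
    rw [Matrix.neg_apply, coeff_neg, Finsupp.neg_apply, h2, neg_zero]

lemma IdN_mul {f : M} {R : Type v} [CommRing R] {n : ℕ}
    (x y : Matrix (Fin n) (Fin n) (MonoidAlgebra R M)) (hy : y ∈ IdN f R n) :
    x * y ∈ IdN f R n := by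
  classical
  intro i j t h hft
  rw [Matrix.mul_apply, coeff_sum, Finsupp.finsetSum_apply] at h
  obtain ⟨k, _, hk⟩ := Finset.exists_ne_zero_of_sum_ne_zero h
  have h1 : x i k * y k j =
      ∑ t ∈ (y k j).coeff.support, x i k * single t ((y k j).coeff t) := by
    conv_lhs => rw [eq_sum_single (y k j)]
    rw [Finset.mul_sum]
  rw [h1, coeff_sum, Finsupp.finsetSum_apply] at hk
  obtain ⟨t', ht', hk'⟩ := Finset.exists_ne_zero_of_sum_ne_zero hk
  obtain ⟨s, _, hst⟩ := mem_mul_single hk'
  have h2 : JLe t t' := by rw [hst]; exact jLe_mul_left _ _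
  exact h2.trans (hy k j t' (Finsupp.mem_support_iff.1 ht') (hft.trans h2))

lemma ps_map {f : M} [hf : Idp f] {R : Type v} {k : Type w} [CommRing R] [CommRing k] (π : R →+* k)
    (x x' s : M) : MonoidAlgebra.mapRingHom (HG f) π (ps R x x' s) = ps k x x' s := by
  classical
  unfold ps
  split_ifs
  · simp
  · simp

lemma ph_map {f : M} [hf : Idp f] {R : Type v} {k : Type w} [CommRing R] [CommRing k] (π : R →+* k)
    (x x' : M) (a : MonoidAlgebra R M) :
    MonoidAlgebra.mapRingHom (HG f) π (ph (f := f) x x' a) =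
      ph (f := f) x x' (MonoidAlgebra.mapRingHom M π a) := by
  induction a using MonoidAlgebra.induction_linear with
  | zero => simp
  | add a b ha hb => rw [map_add, map_add, map_add, map_add, ha, hb]
  | single s r =>
    unfold ph
    rw [mapRingHom_single, lin_single, lin_single, ← ps_map π]
    ext h
    simp

end

/-- the main step in positive characteristic -/
theorem mt_zero {M : Type u} [Monoid M] (hS : Star M) {f : M} [hf : Idp f]
    (hH : ConjRF (HG f)) {k : Type v} [Field k] (p : ℕ) [hp : Fact p.Prime] [CharP k p]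
    [PerfectRing k p] {n : ℕ} (A B : Matrix (Fin n) (Fin n) (MonoidAlgebra k M)) (hAB : A * B = 1)
    {X0 : Finset M} (hX0 : ∀ x ∈ X0, IsRep f x)
    (hN : ∀ i j, ∀ t ∈ ((1 - B * A) i j).coeff.support, JLe f t → JLe t f)
    (hG : ∀ i j, ∀ t ∈ ((1 - B * A) i j).coeff.support, Good f X0 t) :
    mt (f := f) X0 (1 - B * A) = 0 := by
  classical
  have hEE : (1 - B * A) * (1 - B * A) = 1 - B * A := by
    have : (1 - B * A) * (1 - B * A) = 1 - B * A - B * A + B * (A * B) * A := by noncomm_ring
    rw [this, hAB]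
    noncomm_ring
  have he := mt_idem (f := f) hX0 hG hEE
  refine group_zero hH p _ he ?_
  intro C
  obtain ⟨R, _, π, m, hπ, hC⟩ := exists_lift k p C
  refine ⟨R, inferInstance, π, m, hπ, hC, ?_⟩
  -- an idempotent lift of the small matrix
  obtain ⟨x0, hx0⟩ := ((hπ.monoidAlgebra (HG f)).matrix (Fin n × X0)).surj
    (mt (f := f) X0 (1 - B * A))
  obtain ⟨e', he'm, he', -⟩ := ((hπ.monoidAlgebra (HG f)).matrix (Fin n × X0)).lift_idem he ⊤
    (fun _ _ _ => trivial) hx0 trivial
  refine ⟨e', he', he'm, ?_⟩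
  intro χ hχ
  -- lift the matrices
  obtain ⟨A', B', hA', hB', hAB'⟩ := ((hπ.monoidAlgebra M).matrix (Fin n)).lift_inv hAB
  have hEE' : (1 - B' * A') * (1 - B' * A') = 1 - B' * A' := by
    have : (1 - B' * A') * (1 - B' * A') = 1 - B' * A' - B' * A' + B' * (A' * B') * A' := by
      noncomm_ring
    rw [this, hAB']
    noncomm_ring
  have hE'm : (MonoidAlgebra.mapRingHom M π).mapMatrix (1 - B' * A') = 1 - B * A := by
    rw [map_sub, map_one, map_mul, hA', hB']
  -- a lift with support in the ideal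
  have hsec : ∀ y : k, ∃ x : R, π x = y ∧ (y = 0 → x = 0) := by
    intro y
    by_cases hy : y = 0
    · exact ⟨0, by rw [map_zero, hy], fun _ => rfl⟩
    · obtain ⟨x, hx⟩ := hπ.surj y
      exact ⟨x, hx, fun h => absurd h hy⟩
  choose g hg hg0 using hsec
  let L : Matrix (Fin n) (Fin n) (MonoidAlgebra R M) := fun i j =>
    ∑ t ∈ ((1 - B * A) i j).coeff.support, single t (g (((1 - B * A) i j).coeff t))
  have hLm : (MonoidAlgebra.mapRingHom M π).mapMatrix L = 1 - B * A := by
    ext1 i j
    rw [RingHom.mapMatrix_apply, Matrix.map_apply]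
    show MonoidAlgebra.mapRingHom M π (∑ t ∈ ((1 - B * A) i j).coeff.support,
      single t (g (((1 - B * A) i j).coeff t))) = _
    rw [map_sum]
    conv_rhs => rw [eq_sum_single ((1 - B * A) i j)]
    exact Finset.sum_congr rfl (fun t _ => by rw [mapRingHom_single, hg])
  have hLN : L ∈ IdN f R n := by
    intro i j t ht
    by_cases h1 : t ∈ ((1 - B * A) i j).coeff.support
    · exact hN i j t h1
    · exfalso
      apply ht
      show (∑ t ∈ ((1 - B * A) i j).coeff.support,
        single t (g (((1 - B * A) i j).coeff t))).coeff t = 0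
      rw [coeff_sum, Finsupp.finsetSum_apply]
      refine Finset.sum_eq_zero (fun s hs => ?_)
      rw [coeff_single, Finsupp.single_apply, if_neg]
      intro e
      exact h1 (e ▸ hs)
  obtain ⟨e2, he2m, he2, he2N⟩ := ((hπ.monoidAlgebra M).matrix (Fin n)).lift_idem hEE
    (IdN f R n) (fun x y hy => IdN_mul x y hy) hLm hLN
  -- its trace vanishes
  have htr2 : ∑ i, TT χ (e2 i i) = 0 := by
    have h1 := ((hπ.monoidAlgebra M).matrix (Fin n)).trace_eq (mtr (Fin n) (TT χ).toAddMonoidHom)
      (fun a b => trace_comm' (TT χ).toAddMonoidHom (TT_comm hS χ hχ) a b) he2 hEE'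
      (by rw [he2m, hE'm])
    have h2 : ∑ i, TT χ (e2 i i) = ∑ i, TT χ ((1 - B' * A') i i) := h1
    rw [h2]
    have h3 : ∀ i, TT χ ((1 - B' * A') i i) =
        TT χ ((1 : Matrix (Fin n) (Fin n) (MonoidAlgebra R M)) i i) - TT χ ((B' * A') i i) := by
      intro i
      rw [Matrix.sub_apply, map_sub]
    rw [Finset.sum_congr rfl (fun i _ => h3 i), Finset.sum_sub_distrib]
    have h5 := trace_comm' (TT χ).toAddMonoidHom (fun a b => TT_comm hS _ hχ a b) B' A'
    rw [hAB'] at h5
    have h6 : ∑ i, TT χ ((B' * A') i i) =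
        ∑ i, TT χ ((1 : Matrix (Fin n) (Fin n) (MonoidAlgebra R M)) i i) := h5
    rw [h6, sub_self]
  obtain ⟨X1, hX1, hG1, -⟩ := exists_good' hS (f := f) e2
    (fun i j t ht => he2N i j t (Finsupp.mem_support_iff.1 ht))
  let X := X0 ∪ X1
  have hX : ∀ x ∈ X, IsRep f x := by
    intro x hx
    rcases Finset.mem_union.1 hx with h | h
    · exact hX0 x h
    · exact hX1 x h
  have hGX : ∀ i j, ∀ t ∈ (e2 i j).coeff.support, Good f X t :=
    fun i j t ht => (hG1 i j t ht).mono Finset.subset_union_right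
  have hF := mt_idem (f := f) hX hGX he2
  have hFtr := mt_trace hS χ hχ hX hGX
  rw [htr2] at hFtr
  rw [← hFtr]
  -- comparison of the two lifts
  have hsub : ∀ x : X0, x.1 ∈ X := fun x => Finset.mem_union_left _ x.2
  let J : Matrix (Fin n × X) (Fin n × X0) (MonoidAlgebra R (HG f)) :=
    fun a b => if a.1 = b.1 ∧ a.2.1 = b.2.1 then 1 else 0
  let J' : Matrix (Fin n × X0) (Fin n × X) (MonoidAlgebra R (HG f)) :=
    fun b a => if a.2.1 ∈ X0 then (if a.1 = b.1 ∧ a.2.1 = b.2.1 then 1 else 0)
      else mt (f := f) X e2 (b.1, ⟨b.2.1, hsub b.2⟩) a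
  have hJ : J' * J = 1 := by
    ext1 b c
    rw [Matrix.mul_apply, Finset.sum_eq_single (c.1, ⟨c.2.1, hsub c.2⟩)]
    · show (if c.2.1 ∈ X0 then (if c.1 = b.1 ∧ c.2.1 = b.2.1 then
        (1 : MonoidAlgebra R (HG f)) else 0) else _) *
        (if c.1 = c.1 ∧ c.2.1 = c.2.1 then (1 : MonoidAlgebra R (HG f)) else 0) = _
      rw [if_pos c.2.2, if_pos (show c.1 = c.1 ∧ c.2.1 = c.2.1 from ⟨rfl, rfl⟩), mul_one,
        Matrix.one_apply]
      by_cases h : b = c
      · subst h
        rw [if_pos rfl, if_pos ⟨rfl, rfl⟩]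
      · rw [if_neg h, if_neg]
        rintro ⟨h1, h2⟩
        exact h (Prod.ext h1.symm (Subtype.ext h2.symm))
    · intro a _ ha
      have : J a c = 0 := by
        show (if a.1 = c.1 ∧ a.2.1 = c.2.1 then (1 : MonoidAlgebra R (HG f)) else 0) = 0
        rw [if_neg]
        rintro ⟨h1, h2⟩
        exact ha (Prod.ext h1 (Subtype.ext h2))
      rw [this, mul_zero]
    · intro h
      exact absurd (Finset.mem_univ _) h
  refine extend_trace (hπ.monoidAlgebra (HG f)) (lin χ).toAddMonoidHom (lin_comm χ hχ) he' hF J J'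
    hJ ?_
  -- the reductions agree
  obtain ⟨Jk, hJk⟩ : ∃ Jk : Matrix (Fin n × X) (Fin n × X0) (MonoidAlgebra k (HG f)),
      ∀ a b, Jk a b = if a.1 = b.1 ∧ a.2.1 = b.2.1 then 1 else 0 := ⟨_, fun _ _ => rfl⟩
  have hJm : J.map (MonoidAlgebra.mapRingHom (HG f) π) = Jk := by
    ext1 a b
    rw [Matrix.map_apply, hJk]
    show MonoidAlgebra.mapRingHom (HG f) π
      (if a.1 = b.1 ∧ a.2.1 = b.2.1 then (1 : MonoidAlgebra R (HG f)) else 0) = _
    rw [apply_ite (MonoidAlgebra.mapRingHom (HG f) π), map_one, map_zero]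
  have hmtm : (mt (f := f) X e2).map (MonoidAlgebra.mapRingHom (HG f) π) =
      mt (f := f) X (1 - B * A) := by
    ext1 a b
    rw [Matrix.map_apply]
    unfold mt
    rw [ph_map, ← he2m]
    rfl
  have he'm' : e'.map (MonoidAlgebra.mapRingHom (HG f) π) = mt (f := f) X0 (1 - B * A) := he'm
  rw [Matrix.map_mul, Matrix.map_mul, hJm, hmtm, he'm']
  ext1 a c
  rw [Matrix.mul_assoc, Matrix.mul_apply]
  by_cases ha : a.2.1 ∈ X0
  · -- the row belongs to X0
    rw [Finset.sum_eq_single (a.1, ⟨a.2.1, ha⟩)]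
    · rw [hJk, if_pos ⟨rfl, rfl⟩, one_mul, Matrix.mul_apply]
      by_cases hc : c.2.1 ∈ X0
      · rw [Finset.sum_eq_single (c.1, ⟨c.2.1, hc⟩)]
        · rw [Matrix.map_apply]
          show mt (f := f) X0 (1 - B * A) (a.1, ⟨a.2.1, ha⟩) (c.1, ⟨c.2.1, hc⟩) *
            MonoidAlgebra.mapRingHom (HG f) π (if c.2.1 ∈ X0 then (if c.1 = c.1 ∧ c.2.1 = c.2.1
              then 1 else 0) else _) = _
          rw [if_pos hc, if_pos ⟨rfl, rfl⟩, map_one, mul_one]
          rfl
        · intro b _ hb
          rw [Matrix.map_apply]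
          have : J' b c = 0 := by
            show (if c.2.1 ∈ X0 then (if c.1 = b.1 ∧ c.2.1 = b.2.1
              then (1 : MonoidAlgebra R (HG f)) else 0) else _) = 0
            rw [if_pos hc, if_neg]
            rintro ⟨h1, h2⟩
            exact hb (Prod.ext h1.symm (Subtype.ext h2.symm))
          rw [this, map_zero, mul_zero]
        · intro h
          exact absurd (Finset.mem_univ _) h
      · have h1 : ∀ b : Fin n × X0, (J'.map (MonoidAlgebra.mapRingHom (HG f) π)) b c =
            ph (f := f) b.2.1 c.2.1 ((1 - B * A) b.1 c.1) := by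
          intro b
          rw [Matrix.map_apply]
          show MonoidAlgebra.mapRingHom (HG f) π (if c.2.1 ∈ X0 then _ else
            mt (f := f) X e2 (b.1, ⟨b.2.1, hsub b.2⟩) c) = _
          rw [if_neg hc]
          have h2 := congrFun (congrFun hmtm (b.1, ⟨b.2.1, hsub b.2⟩)) c
          rw [Matrix.map_apply] at h2
          rw [h2]
          rfl
        rw [Finset.sum_congr rfl (fun b _ => by rw [h1 b])]
        rw [Fintype.sum_prod_type]
        have h2 : ∀ l : Fin n, ∑ y : X0, mt (f := f) X0 (1 - B * A) (a.1, ⟨a.2.1, ha⟩) (l, y) *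
            ph (f := f) y.1 c.2.1 ((1 - B * A) l c.1) =
            ph (f := f) a.2.1 c.2.1 ((1 - B * A) a.1 l * (1 - B * A) l c.1) := by
          intro l
          rw [ph_mul hX0 (hX _ a.2.2).1 (hX _ c.2.2).1 _ _ (hG l c.1)]
          exact Finset.sum_coe_sort X0 (fun y => ph (f := f) a.2.1 y ((1 - B * A) a.1 l) *
            ph (f := f) y c.2.1 ((1 - B * A) l c.1))
        rw [Finset.sum_congr rfl (fun l _ => h2 l), ← map_sum, ← Matrix.mul_apply, hEE]
        rfl
    · intro b _ hb
      rw [hJk, if_neg, zero_mul]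
      rintro ⟨h1, h2⟩
      exact hb (Prod.ext h1.symm (Subtype.ext h2.symm))
    · intro h
      exact absurd (Finset.mem_univ _) h
  · -- the row vanishes
    rw [Finset.sum_eq_zero]
    · symm
      show ph (f := f) a.2.1 c.2.1 ((1 - B * A) a.1 c.1) = 0
      unfold ph
      rw [lin_eq_sum _ _ _ (le_refl _)]
      refine Finset.sum_eq_zero (fun s hs => ?_)
      rw [ps_zero, smul_zero]
      rintro ⟨h, hh⟩
      have hL : LC f (s * c.2.1) := by
        rw [hh]
        exact LC_mul_H (hX _ a.2.2).1 h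
      obtain ⟨x', hx', h', hh'⟩ := hG a.1 c.1 s hs c.2.1 (hX _ c.2.2).1 hL
      apply ha
      have := IsRep.unique (hX _ a.2.2) (hX0 x' hx') (h := h) (h' := h') (by rw [← hh, hh'])
      rw [this]
      exact hx'
    · intro b _
      rw [hJk, if_neg, zero_mul]
      rintro ⟨_, h2⟩
      apply ha
      rw [h2]
      exact b.2.2

end Pool.Agent.H656.DFSF
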