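import Mathlib
import Pool.Agent.H656.DFSF.MainP

set_option autoImplicit false

/-!
The general theorem.
-/

namespace Pool.Agent.H656.DFSF

open MonoidAlgebra

universe u v w z

/-- all matrix rings over the monoid algebra are directly finite -/
def StabFin (K : Type v) [Field K] (G : Type u) [Monoid G] : Prop :=
  ∀ (n : ℕ) (A B : Matrix (Fin n) (Fin n) (MonoidAlgebra K G)), A * B = 1 → B * A = 1

lemma StabFin.fintype {K : Type v} [Field K] {G : Type u} [Monoid G] (h : StabFin K G)
    {ι : Type w} [Fintype ι] [DecidableEq ι] (A B : Matrix ι ι (MonoidAlgebra K G))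
    (hAB : A * B = 1) : B * A = 1 := by
  let e := Fintype.equivFin ι
  have h1 : A.submatrix e.symm e.symm * B.submatrix e.symm e.symm = 1 := by
    rw [Matrix.submatrix_mul_equiv, hAB, Matrix.submatrix_one_equiv]
  have h2 := h _ _ _ h1
  rw [Matrix.submatrix_mul_equiv] at h2
  ext1 i j
  have h3 := congrFun (congrFun h2 (e i)) (e j)
  rw [Matrix.submatrix_apply, Equiv.symm_apply_apply, Equiv.symm_apply_apply] at h3
  rw [h3, Matrix.one_apply, Matrix.one_apply]
  simp

section abelian

/-- commutative groups -/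
theorem conjRF_of_comm {H : Type u} [Group H] (h : ∀ a b : H, a * b = b * a) : ConjRF H := by
  intro H0 hfg x hx hx1
  let _ : CommGroup H0 := { (inferInstance : Group H0) with
    mul_comm := fun a b => Subtype.ext (h a b) }
  have hfg' : Group.FG H0 := (Group.fg_iff_subgroup_fg H0).2 hfg
  have hfg2 : AddGroup.FG (Additive H0) := inferInstance
  obtain ⟨n, ι, hι, p, hp, e, ⟨φ⟩⟩ :=
    AddCommGroup.equiv_free_prod_directSum_zmod (Additive H0)
  let x0 : Additive H0 := Additive.ofMul ⟨x, hx⟩
  have hx0 : x0 ≠ 0 := by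
    intro h0
    apply hx1
    exact congrArg Subtype.val (Additive.ofMul.injective h0 : (⟨x, hx⟩ : H0) = 1)
  have hφ : φ x0 ≠ 0 := fun h0 => hx0 (by rw [← map_zero φ] at h0; exact φ.injective h0)
  -- a homomorphism to a finite group
  obtain ⟨C, _, _, ψ, hψ⟩ : ∃ (C : Type u) (_ : AddCommGroup C) (_ : Finite C)
      (ψ : Additive H0 →+ C), ψ x0 ≠ 0 := by
    classical
    by_cases h1 : (φ x0).1 = 0
    · have h2 : (φ x0).2 ≠ 0 := fun h2 => hφ (Prod.ext h1 h2)
      have : ∀ i, NeZero (p i ^ e i) := fun i => ⟨pow_ne_zero _ (hp i).ne_zero⟩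
      have : Finite (DirectSum ι fun i => ZMod (p i ^ e i)) := by
        have : Finite (∀ i, ZMod (p i ^ e i)) := inferInstance
        exact Finite.of_injective (fun (v : DirectSum ι fun i => ZMod (p i ^ e i)) i => v i)
          (fun a b hab => DFinsupp.ext (fun i => congrFun hab i))
      refine ⟨ULift (DirectSum ι fun i => ZMod (p i ^ e i)), inferInstance, inferInstance,
        (AddEquiv.ulift.symm.toAddMonoidHom.comp ((AddMonoidHom.snd _ _).comp φ.toAddMonoidHom)), ?_⟩
      intro h3
      apply h2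
      exact AddEquiv.ulift.symm.injective (h3.trans (map_zero _).symm)
    · obtain ⟨i, hi⟩ : ∃ i, (φ x0).1 i ≠ 0 := by
        by_contra hcon
        push Not at hcon
        exact h1 (by ext i; exact hcon i)
      let N := ((φ x0).1 i).natAbs + 1
      have : NeZero N := ⟨Nat.succ_ne_zero _⟩
      refine ⟨ULift (ZMod N), inferInstance, inferInstance,
        (AddEquiv.ulift.symm.toAddMonoidHom.comp ((Int.castAddHom (ZMod N)).comp
          ((Finsupp.applyAddHom i).comp ((AddMonoidHom.fst _ _).comp φ.toAddMonoidHom)))), ?_⟩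
      intro h3
      have h4 : (((φ x0).1 i : ℤ) : ZMod N) = 0 :=
        AddEquiv.ulift.symm.injective (h3.trans (map_zero _).symm)
      rw [ZMod.intCast_zmod_eq_zero_iff_dvd] at h4
      have h5 := Int.natAbs_dvd_natAbs.2 h4
      have h6 := Nat.le_of_dvd (Int.natAbs_pos.2 hi) h5
      have h7 : (N : ℤ).natAbs = N := Int.natAbs_natCast N
      rw [h7] at h6
      omega
  let χ : H0 →* Multiplicative C := AddMonoidHom.toMultiplicativeRight ψ
  refine ⟨χ.ker.map H0.subtype, ?_, ?_, ?_, ?_⟩
  · rintro _ ⟨y, _, rfl⟩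
    exact y.2
  · have h1 : (χ.ker.map H0.subtype).relIndex H0 = χ.ker.index := by
      rw [Subgroup.relIndex, Subgroup.subgroupOf, Subgroup.comap_map_eq_self_of_injective
        H0.subtype_injective]
    rw [h1]
    have : Finite χ.range := inferInstance
    rw [Subgroup.index_ker]
    exact Nat.card_ne_zero.2 ⟨⟨1⟩, inferInstance⟩
  · rintro ⟨y, hy, hyx⟩
    apply hψ
    have : y = ⟨x, hx⟩ := Subtype.ext hyx
    rw [this] at hy
    have hy' : χ ⟨x, hx⟩ = 1 := hy
    exact Multiplicative.ofAdd.injective hy'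
  · intro a ha b _ hab
    obtain ⟨c, hc⟩ := isConj_iff.1 hab
    have : b = a := by rw [← hc, h c a]; group
    rw [this]
    exact ha

end abelian

section finiteclass

variable {M : Type u} [Monoid M] {f : M} [hf : Idp f] {K : Type v} [Field K]

theorem mt_mul {n : ℕ} {X : Finset M} (hX : ∀ x ∈ X, IsRep f x) (hG : ∀ s, Good f X s)
    (A B : Matrix (Fin n) (Fin n) (MonoidAlgebra K M)) :
    mt (f := f) X (A * B) = mt (f := f) X A * mt (f := f) X B := by
  ext1 a b
  rw [Matrix.mul_apply, Fintype.sum_prod_type]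
  unfold mt
  have h1 : ∀ k : Fin n, ∑ y : X, ph (f := f) a.2.1 y.1 (A a.1 k) * ph (f := f) y.1 b.2.1 (B k b.1) =
      ph (f := f) a.2.1 b.2.1 (A a.1 k * B k b.1) := by
    intro k
    rw [ph_mul hX (hX _ a.2.2).1 (hX _ b.2.2).1 _ _ (fun t _ => hG t)]
    exact Finset.sum_coe_sort X (fun y => ph (f := f) a.2.1 y (A a.1 k) *
      ph (f := f) y b.2.1 (B k b.1))
  simp only
  rw [Finset.sum_congr rfl (fun k _ => h1 k), ← map_sum, ← Matrix.mul_apply]

open Classical in
theorem mt_one {n : ℕ} {X : Finset M} (hX : ∀ x ∈ X, IsRep f x) :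
    mt (f := f) X (1 : Matrix (Fin n) (Fin n) (MonoidAlgebra K M)) = 1 := by
  ext1 a b
  unfold mt ph
  by_cases h1 : a.1 = b.1
  · rw [h1, Matrix.one_apply_eq, one_def, lin_single, one_smul]
    by_cases h2 : a.2 = b.2
    · have hab : a = b := Prod.ext h1 h2
      subst hab
      rw [Matrix.one_apply_eq, ps_eq (hX _ a.2.2).1 (h := 1)
        (by rw [one_mul, HG.one_val, (hX _ a.2.2).1.1]), one_def]
    · rw [Matrix.one_apply_ne (fun e => h2 (by rw [e])), ps_zero]
      rintro ⟨h, hh⟩
      apply h2
      apply Subtype.ext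
      refine (IsRep.unique (hX _ b.2.2) (hX _ a.2.2) (h := 1) (h' := h) ?_).symm
      rw [HG.one_val, (hX _ b.2.2).1.1, ← hh, one_mul]
  · rw [Matrix.one_apply_ne h1, Matrix.one_apply_ne (fun e => h1 (by rw [e])), map_zero]

end finiteclass

/-- the final condition at an idempotent -/
def Cond {M : Type u} [Monoid M] (K : Type v) [Field K] (f : M) [Idp f] : Prop :=
  ConjRF (HG f) ∨ ({I : Set M | ∃ x, LC f x ∧ I = rI x}.Finite ∧ StabFin K (HG f))

theorem stably_finite_general {M : Type u} [Monoid M] (hS : Star M) {K : Type v} [Field K]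
    (hc : ∀ (f : M) [Idp f], Cond K f) : StabFin K M := by
  classical
  intro n A B hAB
  rcases CharP.exists K with ⟨p, hp⟩
  rcases CharP.char_is_prime_or_zero K p with hprime | hzero
  swap
  · subst hzero
    have : CharZero K := CharP.charP_to_charZero K
    exact stably_finite_charZero hS A B hAB
  have : Fact p.Prime := ⟨hprime⟩
  by_contra hne
  have hE0 : (1 - B * A) ≠ 0 := fun h => hne (sub_eq_zero.1 h).symm
  have hEE : (1 - B * A) * (1 - B * A) = 1 - B * A := by
    have : (1 - B * A) * (1 - B * A) = 1 - B * A - B * A + B * (A * B) * A := by noncomm_ring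
    rw [this, hAB]
    noncomm_ring
  obtain ⟨f, hff, ⟨i0, j0, c, hc0, hfc⟩, hN⟩ := exists_class hS hEE hE0
  have : Idp f := ⟨hff⟩
  obtain ⟨X, hX, hG, hG'⟩ := exists_good' hS (f := f) (1 - B * A) hN
  apply hc0
  rcases hc f with hH | ⟨hfin, hsf⟩
  · -- case of residually finite subgroups: pass to the algebraic closure
    refine coeff_zero hS hX hG hG' hEE ?_ hfc i0 j0
    let k := AlgebraicClosure K
    let π : K →+* k := algebraMap K k
    have hπ : Function.Injective π := π.injective
    have : CharP k p := charP_of_injective_algebraMap hπ p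
    have : PerfectRing k p := PerfectField.toPerfectRing p
    let mM := (MonoidAlgebra.mapRingHom M π).mapMatrix (m := Fin n)
    have hABk : mM A * mM B = 1 := by rw [← map_mul, hAB, map_one]
    have hEk : (1 : Matrix (Fin n) (Fin n) (MonoidAlgebra k M)) - mM B * mM A = mM (1 - B * A) := by
      rw [map_sub, map_one, map_mul]
    have hsupp : ∀ i j t, t ∈ ((1 - mM B * mM A) i j).coeff.support →
        t ∈ ((1 - B * A) i j).coeff.support := by
      intro i j t ht
      rw [hEk, Finsupp.mem_support_iff, RingHom.mapMatrix_apply, Matrix.map_apply,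
        coeff_mapRingHom] at ht
      rw [Finsupp.mem_support_iff]
      intro h0
      apply ht
      rw [h0, map_zero]
    have hz := mt_zero hS hH p (mM A) (mM B) hABk hX
      (fun i j t ht => hN i j t (hsupp i j t ht)) (fun i j t ht => hG i j t (hsupp i j t ht))
    ext a b h
    have h1 := congrFun (congrFun hz a) b
    rw [hEk] at h1
    have h2 : MonoidAlgebra.mapRingHom (HG f) π (mt (f := f) X (1 - B * A) a b) = 0 := by
      unfold mt at h1 ⊢
      rw [ph_map]
      exact h1
    have h3 := congrArg (fun z => z.coeff h) h2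
    simp only [coeff_mapRingHom] at h3
    apply hπ
    rw [h3]
    simp
  · -- case of finitely many right ideals
    have hfinR : {x : M | IsRep f x}.Finite := by
      refine (hfin.image (rp f)).subset ?_
      rintro x hx
      exact ⟨rI x, ⟨x, hx.1, rfl⟩, hx.2⟩
    let Y : Finset M := hfinR.toFinset
    have hY : ∀ x ∈ Y, IsRep f x := fun x hx => (Set.Finite.mem_toFinset hfinR).1 hx
    have hGY : ∀ s, Good f Y s := by
      intro s x _ hsx
      obtain ⟨h, hh⟩ := exists_rp hS hsx
      exact ⟨_, (Set.Finite.mem_toFinset hfinR).2 (isRep_rp hsx), h, hh⟩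
    refine coeff_zero hS hY (fun _ _ t _ => hGY t) ?_ hEE ?_ hfc i0 j0
    · intro i j t ht hft
      obtain ⟨x, hx, hb⟩ := hG' i j t ht hft
      exact ⟨x, (Set.Finite.mem_toFinset hfinR).2 (hX x hx), hb⟩
    · have h1 : mt (f := f) Y A * mt (f := f) Y B = 1 := by
        rw [← mt_mul hY hGY, hAB, mt_one hY]
      have h2 := hsf.fintype _ _ h1
      rw [← mt_mul hY hGY] at h2
      have h3 : mt (f := f) Y (1 - B * A) = mt (f := f) Y 1 - mt (f := f) Y (B * A) := by
        ext1 a b
        rw [Matrix.sub_apply]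
        show ph (f := f) a.2.1 b.2.1 ((1 - B * A) a.1 b.1) = _
        rw [Matrix.sub_apply, map_sub]
        rfl
      rw [h3, h2, mt_one hY, sub_self]

end Pool.Agent.H656.DFSF
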